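import Mathlib

set_option autoImplicit false

open Finset

namespace Pool.Agent.TH186.Balls

universe u

open scoped Classical

variable {V : Type u}

/-- the ball as a finset -/
noncomputable def ball (G : SimpleGraph V) (v : V) (r : ℕ) : Finset V :=
  if h : {w | G.dist v w ≤ r}.Finite then h.toFinset else ∅

/-- the neighbours as a finset -/
noncomputable def nb (G : SimpleGraph V) (v : V) : Finset V :=
  if h : (G.neighborSet v).Finite then h.toFinset else ∅

/-- the hypotheses -/
structure Hyp (G : SimpleGraph V) (D : ℕ) (h : ℝ) : Prop where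
  conn : G.Connected
  fin : ∀ v, (G.neighborSet v).Finite
  deg : ∀ v, (nb G v).card ≤ D
  pos : 0 < h
  exp : ∀ (v : V) (r : ℕ) (S : Finset V), S ⊆ ball G v r → 2 * S.card ≤ (ball G v r).card →
    h * (S.card : ℝ) ≤ (((ball G v r).filter (fun w => w ∉ S ∧ ∃ u ∈ S, G.Adj u w)).card : ℝ)

theorem exists_next {G : SimpleGraph V} (hc : G.Connected) {u x : V} (hne : u ≠ x) :
    ∃ w, G.Adj u w ∧ G.dist w x + 1 = G.dist u x := by
  obtain ⟨p, hp⟩ := hc.exists_walk_length_eq_dist u x
  cases p with
  | nil => exact absurd rfl hne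
  | @cons _ w _ h q =>
    refine ⟨w, h, ?_⟩
    rw [SimpleGraph.Walk.length_cons] at hp
    have h1 := SimpleGraph.dist_le q
    have h2 := hc.dist_triangle (u := u) (v := w) (w := x)
    have h3 : G.dist u w = 1 := SimpleGraph.dist_eq_one_iff_adj.2 h
    omega

variable {G : SimpleGraph V} {D : ℕ} {h : ℝ}

theorem mem_nb (hf : ∀ v, (G.neighborSet v).Finite) {v w : V} : w ∈ nb G v ↔ G.Adj v w := by
  unfold nb
  rw [dif_pos (hf v)]
  simp

theorem ball_fin (hc : G.Connected) (hf : ∀ v, (G.neighborSet v).Finite) (v : V) (r : ℕ) :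
    {w | G.dist v w ≤ r}.Finite := by
  induction r with
  | zero =>
    refine Set.Finite.subset (Set.finite_singleton v) ?_
    intro w hw
    have : G.dist v w = 0 := Nat.le_zero.1 hw
    exact (hc.dist_eq_zero_iff.1 this).symm
  | succ r ih =>
    refine Set.Finite.subset (ih.union (ih.biUnion fun u _ => hf u)) ?_
    intro w hw
    by_cases h1 : G.dist v w ≤ r
    · exact Or.inl h1
    · right
      have hne : w ≠ v := by
        rintro rfl
        rw [SimpleGraph.dist_self] at h1
        omega
      obtain ⟨u, hu1, hu2⟩ := exists_next hc hne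
      have hw' : G.dist v w ≤ r + 1 := hw
      rw [SimpleGraph.dist_comm] at hw'
      simp only [Set.mem_iUnion]
      refine ⟨u, ?_, hu1.symm⟩
      show G.dist v u ≤ r
      rw [SimpleGraph.dist_comm]
      omega

theorem mem_ball (hc : G.Connected) (hf : ∀ v, (G.neighborSet v).Finite) {v w : V} {r : ℕ} :
    w ∈ ball G v r ↔ G.dist v w ≤ r := by
  unfold ball
  rw [dif_pos (ball_fin hc hf v r)]
  simp

section
variable (H : Hyp G D h)
include H

theorem Hyp.mem {v w : V} {r : ℕ} : w ∈ ball G v r ↔ G.dist v w ≤ r := mem_ball H.conn H.fin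

theorem Hyp.mem_nb {v w : V} : w ∈ nb G v ↔ G.Adj v w := Balls.mem_nb H.fin

theorem Hyp.dist_adj {v w x : V} (ha : G.Adj v w) : G.dist v x ≤ G.dist w x + 1 := by
  have h2 := H.conn.dist_triangle (u := v) (v := w) (w := x)
  have h3 : G.dist v w = 1 := SimpleGraph.dist_eq_one_iff_adj.2 ha
  omega

theorem Hyp.ball_succ_subset (v : V) (r : ℕ) :
    ball G v (r + 1) ⊆ (ball G v r) ∪ (ball G v r).biUnion (nb G) := by
  intro w hw
  rw [H.mem] at hw
  rw [Finset.mem_union]
  by_cases h1 : G.dist v w ≤ r
  · exact Or.inl (H.mem.2 h1)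
  · right
    have hne : w ≠ v := by
      rintro rfl
      rw [SimpleGraph.dist_self] at h1
      omega
    obtain ⟨u, hu1, hu2⟩ := exists_next H.conn hne
    rw [SimpleGraph.dist_comm] at hw
    rw [Finset.mem_biUnion]
    refine ⟨u, H.mem.2 ?_, H.mem_nb.2 hu1.symm⟩
    rw [SimpleGraph.dist_comm]
    omega

theorem Hyp.card_succ (v : V) (r : ℕ) :
    (ball G v (r + 1)).card ≤ (D + 1) * (ball G v r).card := by
  calc (ball G v (r + 1)).card ≤ ((ball G v r) ∪ (ball G v r).biUnion (nb G)).card :=
        Finset.card_le_card (H.ball_succ_subset v r)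
    _ ≤ (ball G v r).card + ((ball G v r).biUnion (nb G)).card := Finset.card_union_le _ _
    _ ≤ (ball G v r).card + (ball G v r).card * D :=
        Nat.add_le_add_left (Finset.card_biUnion_le_card_mul _ _ _ fun u _ => H.deg u) _
    _ = (D + 1) * (ball G v r).card := by ring

theorem Hyp.card_zero (v : V) : (ball G v 0).card = 1 := by
  rw [Finset.card_eq_one]
  refine ⟨v, ?_⟩
  ext w
  rw [H.mem, Finset.mem_singleton, Nat.le_zero, H.conn.dist_eq_zero_iff]
  exact eq_comm

theorem Hyp.card_le (v : V) (r : ℕ) : (ball G v r).card ≤ (D + 1) ^ r := by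
  induction r with
  | zero => rw [H.card_zero, pow_zero]
  | succ r ih =>
    calc (ball G v (r + 1)).card ≤ (D + 1) * (ball G v r).card := H.card_succ v r
      _ ≤ (D + 1) * (D + 1) ^ r := Nat.mul_le_mul_left _ ih
      _ = (D + 1) ^ (r + 1) := by ring

theorem Hyp.self_mem (v : V) (r : ℕ) : v ∈ ball G v r := by
  rw [H.mem, SimpleGraph.dist_self]
  exact Nat.zero_le r

theorem Hyp.card_pos (v : V) (r : ℕ) : 0 < (ball G v r).card :=
  Finset.card_pos.2 ⟨v, H.self_mem v r⟩

theorem Hyp.mono (v : V) {r s : ℕ} (hrs : r ≤ s) : ball G v r ⊆ ball G v s := by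
  intro w hw
  rw [H.mem] at *
  omega

theorem Hyp.card_adj {u w : V} (ha : G.Adj u w) (m : ℕ) :
    (ball G u (m + 1)).card ≤ (D + 1) ^ 2 * (ball G w m).card := by
  have h1 : ball G u (m + 1) ⊆ ball G w (m + 2) := by
    intro x hx
    rw [H.mem] at *
    have := H.dist_adj (x := x) ha.symm
    omega
  calc (ball G u (m + 1)).card ≤ (ball G w (m + 2)).card := Finset.card_le_card h1
    _ ≤ (D + 1) * (ball G w (m + 1)).card := H.card_succ w (m + 1)
    _ ≤ (D + 1) * ((D + 1) * (ball G w m).card) := Nat.mul_le_mul_left _ (H.card_succ w m)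
    _ = (D + 1) ^ 2 * (ball G w m).card := by ring

end

/-- repeated neighbourhoods inside `B` -/
noncomputable def grow (G : SimpleGraph V) (B S : Finset V) : ℕ → Finset V
  | 0 => S
  | t + 1 => grow G B S t ∪ B.filter (fun w => ∃ u ∈ grow G B S t, G.Adj u w)

theorem grow_subset {B S : Finset V} (hS : S ⊆ B) (t : ℕ) : grow G B S t ⊆ B := by
  induction t with
  | zero => exact hS
  | succ t ih =>
    unfold grow
    exact Finset.union_subset ih (Finset.filter_subset _ _)

theorem grow_mono (B S : Finset V) (t : ℕ) : grow G B S t ⊆ grow G B S (t + 1) := by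
  conv_rhs => unfold grow
  exact Finset.subset_union_left

theorem mem_grow_succ {B S : Finset V} {t : ℕ} {u w : V} (hu : u ∈ grow G B S t) (hw : w ∈ B)
    (ha : G.Adj u w) : w ∈ grow G B S (t + 1) := by
  unfold grow
  exact Finset.mem_union_right _ (Finset.mem_filter.2 ⟨hw, u, hu, ha⟩)

theorem grow_dist (hc : G.Connected) {B S : Finset V} (t : ℕ) : ∀ w ∈ grow G B S t,
    ∃ s ∈ S, G.dist s w ≤ t := by
  induction t with
  | zero =>
    intro w hw
    exact ⟨w, hw, by rw [SimpleGraph.dist_self]⟩
  | succ t ih =>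
    intro w hw
    unfold grow at hw
    rcases Finset.mem_union.1 hw with hw | hw
    · obtain ⟨s, hs, h1⟩ := ih w hw
      exact ⟨s, hs, by omega⟩
    · obtain ⟨_, u, hu, ha⟩ := Finset.mem_filter.1 hw
      obtain ⟨s, hs, h1⟩ := ih u hu
      refine ⟨s, hs, ?_⟩
      have h2 := hc.dist_triangle (u := s) (v := u) (w := w)
      have h3 : G.dist u w = 1 := SimpleGraph.dist_eq_one_iff_adj.2 ha
      omega

section
variable (H : Hyp G D h)
include H

theorem Hyp.grow_small {v : V} {r : ℕ} {S : Finset V} (hS : S ⊆ ball G v r) (t : ℕ)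
    (ht : 2 * (grow G (ball G v r) S t).card ≤ (ball G v r).card) :
    (1 + h) * ((grow G (ball G v r) S t).card : ℝ) ≤ ((grow G (ball G v r) S (t + 1)).card : ℝ) := by
  have h1 := H.exp v r _ (grow_subset hS t) ht
  have h2 : Disjoint (grow G (ball G v r) S t) ((ball G v r).filter
      (fun w => w ∉ grow G (ball G v r) S t ∧ ∃ u ∈ grow G (ball G v r) S t, G.Adj u w)) := by
    rw [Finset.disjoint_left]
    intro a ha hb
    exact (Finset.mem_filter.1 hb).2.1 ha
  have h3 : (grow G (ball G v r) S t) ∪ ((ball G v r).filter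
      (fun w => w ∉ grow G (ball G v r) S t ∧ ∃ u ∈ grow G (ball G v r) S t, G.Adj u w)) ⊆
      grow G (ball G v r) S (t + 1) := by
    refine Finset.union_subset (grow_mono _ _ t) ?_
    intro w hw
    obtain ⟨hw1, _, u, hu, ha⟩ := Finset.mem_filter.1 hw
    exact mem_grow_succ hu hw1 ha
  have h4 := Finset.card_le_card h3
  rw [Finset.card_union_of_disjoint h2] at h4
  have h5 : ((grow G (ball G v r) S t).card : ℝ) + (((ball G v r).filter
      (fun w => w ∉ grow G (ball G v r) S t ∧ ∃ u ∈ grow G (ball G v r) S t, G.Adj u w)).card : ℝ) ≤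
      ((grow G (ball G v r) S (t + 1)).card : ℝ) := by exact_mod_cast h4
  linarith

theorem Hyp.grow_large {v : V} {r : ℕ} {S : Finset V} (hS : S ⊆ ball G v r) (t : ℕ)
    (ht : (ball G v r).card ≤ 2 * (grow G (ball G v r) S t).card) :
    (1 + h) * ((ball G v r \ grow G (ball G v r) S (t + 1)).card : ℝ) ≤
      ((ball G v r \ grow G (ball G v r) S t).card : ℝ) := by
  set B := ball G v r with hB
  set U := grow G B S t with hU
  set U' := grow G B S (t + 1) with hU'
  have hUU : U ⊆ U' := grow_mono _ _ t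
  have hUB : U' ⊆ B := grow_subset hS (t + 1)
  have h0 : (B \ U').card + U'.card = B.card := Finset.card_sdiff_add_card_eq_card hUB
  have h0' : U.card ≤ U'.card := Finset.card_le_card hUU
  have h1 := H.exp v r (B \ U') Finset.sdiff_subset (by rw [← hB]; omega)
  rw [← hB] at h1
  have h2 : Disjoint (B \ U') (B.filter (fun w => w ∉ B \ U' ∧ ∃ u ∈ B \ U', G.Adj u w)) := by
    rw [Finset.disjoint_left]
    intro a ha hb
    exact (Finset.mem_filter.1 hb).2.1 ha
  have h3 : (B \ U') ∪ (B.filter (fun w => w ∉ B \ U' ∧ ∃ u ∈ B \ U', G.Adj u w)) ⊆ B \ U := by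
    refine Finset.union_subset (Finset.sdiff_subset_sdiff (Finset.Subset.refl _) hUU) ?_
    intro w hw
    obtain ⟨hw1, _, u, hu, ha⟩ := Finset.mem_filter.1 hw
    rw [Finset.mem_sdiff] at hu ⊢
    refine ⟨hw1, fun hwU => hu.2 ?_⟩
    exact mem_grow_succ hwU hu.1 ha.symm
  have h4 := Finset.card_le_card h3
  rw [Finset.card_union_of_disjoint h2] at h4
  have h5 : ((B \ U').card : ℝ) +
      ((B.filter (fun w => w ∉ B \ U' ∧ ∃ u ∈ B \ U', G.Adj u w)).card : ℝ) ≤
      ((B \ U).card : ℝ) := by exact_mod_cast h4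
  linarith

theorem Hyp.grow_half {v : V} {r : ℕ} {S : Finset V} (hS : S ⊆ ball G v r) (t : ℕ) :
    (ball G v r).card ≤ 2 * (grow G (ball G v r) S t).card ∨
      (1 + h) ^ t * (S.card : ℝ) ≤ ((grow G (ball G v r) S t).card : ℝ) := by
  induction t with
  | zero =>
    right
    rw [pow_zero, one_mul]
    exact le_rfl
  | succ t ih =>
    have hm := Finset.card_le_card (grow_mono (G := G) (ball G v r) S t)
    by_cases hc : 2 * (grow G (ball G v r) S t).card ≤ (ball G v r).card
    · rcases ih with ih | ih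
      · left
        omega
      · right
        have h1 := H.grow_small hS t hc
        have hp := H.pos
        calc (1 + h) ^ (t + 1) * (S.card : ℝ) = (1 + h) * ((1 + h) ^ t * (S.card : ℝ)) := by ring
          _ ≤ (1 + h) * ((grow G (ball G v r) S t).card : ℝ) := by
              apply mul_le_mul_of_nonneg_left ih (by linarith)
          _ ≤ _ := h1
    · left
      omega

/-- if `S` has density at least `c` then all but `(1+h)^(-t)` of the ball is within distance
`T + t` of `S` -/
theorem Hyp.grow_all {v : V} {r : ℕ} {S : Finset V} (hS : S ⊆ ball G v r) (c : ℝ)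
    (hcS : c * ((ball G v r).card : ℝ) ≤ S.card) (T : ℕ) (hT : 1 ≤ (1 + h) ^ T * c) (t : ℕ) :
    (1 + h) ^ t * ((ball G v r \ grow G (ball G v r) S (T + t)).card : ℝ) ≤
      ((ball G v r).card : ℝ) := by
  have hp := H.pos
  have h0 : (ball G v r).card ≤ 2 * (grow G (ball G v r) S T).card := by
    rcases H.grow_half hS T with h1 | h1
    · exact h1
    · have h2 : ((ball G v r).card : ℝ) ≤ ((grow G (ball G v r) S T).card : ℝ) := by
        calc ((ball G v r).card : ℝ) = 1 * ((ball G v r).card : ℝ) := (one_mul _).symm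
          _ ≤ ((1 + h) ^ T * c) * ((ball G v r).card : ℝ) :=
              mul_le_mul_of_nonneg_right hT (Nat.cast_nonneg _)
          _ = (1 + h) ^ T * (c * ((ball G v r).card : ℝ)) := by ring
          _ ≤ (1 + h) ^ T * (S.card : ℝ) := by
              apply mul_le_mul_of_nonneg_left hcS (by positivity)
          _ ≤ _ := h1
      have h3 : (ball G v r).card ≤ (grow G (ball G v r) S T).card := by exact_mod_cast h2
      omega
  have hmono : ∀ t, (ball G v r).card ≤ 2 * (grow G (ball G v r) S (T + t)).card := by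
    intro t
    induction t with
    | zero => exact h0
    | succ t ih =>
      have := Finset.card_le_card (grow_mono (G := G) (ball G v r) S (T + t))
      rw [← add_assoc]
      omega
  induction t with
  | zero =>
    rw [pow_zero, one_mul]
    exact_mod_cast Finset.card_le_card Finset.sdiff_subset
  | succ t ih =>
    have h1 := H.grow_large hS (T + t) (hmono t)
    calc (1 + h) ^ (t + 1) * ((ball G v r \ grow G (ball G v r) S (T + (t + 1))).card : ℝ)
        = (1 + h) ^ t * ((1 + h) * ((ball G v r \ grow G (ball G v r) S (T + t + 1)).card : ℝ)) := by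
          rw [← add_assoc]; ring
      _ ≤ (1 + h) ^ t * ((ball G v r \ grow G (ball G v r) S (T + t)).card : ℝ) := by
          apply mul_le_mul_of_nonneg_left h1 (by positivity)
      _ ≤ _ := ih

end

end Pool.Agent.TH186.Balls
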