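import Mathlib
import Pool.Agent.TH186.Balls.Basic

set_option autoImplicit false

open Finset

namespace Pool.Agent.TH186.Balls

universe u

open scoped Classical

variable {V : Type u}

/-- a neighbour of `u` closer to `x` -/
noncomputable def next (G : SimpleGraph V) (u x : V) : V :=
  if h : ∃ w, G.Adj u w ∧ G.dist w x + 1 = G.dist u x then h.choose else u

/-- the walk from `z` to `x` -/
noncomputable def path (G : SimpleGraph V) (z x : V) : ℕ → V
  | 0 => z
  | i + 1 => next G (path G z x i) x

/-- the part of the ball which the step from `u` to `w` does not approach -/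
noncomputable def far (G : SimpleGraph V) (u w : V) (m : ℕ) : Finset V :=
  (ball G u m).filter (fun s => G.dist u s ≤ G.dist w s)

/-- the step from `u` to `w` is unforced -/
def unf (G : SimpleGraph V) (c : ℝ) (u w : V) (m : ℕ) : Prop :=
  c * ((ball G u m).card : ℝ) ≤ ((far G u w m).card : ℝ)

variable {G : SimpleGraph V} {D : ℕ} {h : ℝ}

theorem next_spec (hc : G.Connected) {u x : V} (hne : u ≠ x) :
    G.Adj u (next G u x) ∧ G.dist (next G u x) x + 1 = G.dist u x := by
  have h := exists_next hc hne
  unfold next
  rw [dif_pos h]
  exact h.choose_spec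

theorem far_subset (u w : V) (m : ℕ) : far G u w m ⊆ ball G u m := Finset.filter_subset _ _

section
variable (H : Hyp G D h)
include H

theorem Hyp.path_dist {z x : V} {i : ℕ} (hi : i ≤ G.dist z x) :
    G.dist (path G z x i) x + i = G.dist z x := by
  induction i with
  | zero => rfl
  | succ i ih =>
    have h1 := ih (by omega)
    have hne : path G z x i ≠ x := by
      intro he
      rw [he, SimpleGraph.dist_self] at h1
      omega
    have h2 := (next_spec H.conn hne).2
    show G.dist (next G (path G z x i) x) x + (i + 1) = G.dist z x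
    omega

theorem Hyp.path_adj {z x : V} {i : ℕ} (hi : i < G.dist z x) :
    G.Adj (path G z x i) (path G z x (i + 1)) := by
  have h1 := H.path_dist hi.le
  have hne : path G z x i ≠ x := by
    intro he
    rw [he, SimpleGraph.dist_self] at h1
    omega
  exact (next_spec H.conn hne).1

theorem Hyp.path_near {z x : V} {i : ℕ} (hi : i ≤ G.dist z x) :
    G.dist z (path G z x i) ≤ i := by
  induction i with
  | zero =>
    show G.dist z z ≤ 0
    rw [SimpleGraph.dist_self]
  | succ i ih =>
    have h1 := ih (by omega)
    have h2 := H.path_adj (z := z) (x := x) (i := i) (by omega)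
    have h3 := H.conn.dist_triangle (u := z) (v := path G z x i) (w := path G z x (i + 1))
    have h4 : G.dist (path G z x i) (path G z x (i + 1)) = 1 := SimpleGraph.dist_eq_one_iff_adj.2 h2
    omega

/-- a vertex near `x` is not approached in at most `2T` steps of the walk from `z` to `x` -/
theorem Hyp.jumps {z x s : V} {T J : ℕ} (hs : G.dist s x ≤ T) (hJ : J ≤ G.dist z x) :
    ((Finset.range J).filter
      (fun i => G.dist (path G z x i) s ≤ G.dist (path G z x (i + 1)) s)).card ≤ 2 * T := by
  have key : ∀ J, J ≤ G.dist z x → ((Finset.range J).filter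
      (fun i => G.dist (path G z x i) s ≤ G.dist (path G z x (i + 1)) s)).card + G.dist z s ≤
      G.dist (path G z x J) s + J := by
    intro J
    induction J with
    | zero =>
      intro _
      rw [Finset.range_zero, Finset.filter_empty, Finset.card_empty]
      show 0 + G.dist z s ≤ G.dist z s + 0
      omega
    | succ J ih =>
      intro hJ
      have h1 := ih (by omega)
      have h2 := H.path_adj (z := z) (x := x) (i := J) (by omega)
      have h3 := H.dist_adj (x := s) h2
      rw [Finset.range_add_one, Finset.filter_insert]
      split_ifs with hif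
      · have h4 := Finset.card_insert_le J ((Finset.range J).filter
          (fun i => G.dist (path G z x i) s ≤ G.dist (path G z x (i + 1)) s))
        omega
      · omega
  have h1 := key J hJ
  have h2 := H.path_dist hJ
  have h3 := H.conn.dist_triangle (u := path G z x J) (v := x) (w := s)
  have h4 := H.conn.dist_triangle (u := z) (v := s) (w := x)
  rw [SimpleGraph.dist_comm (u := x) (v := s)] at h3
  omega

/-- a forced step -/
theorem Hyp.forced {u w : V} {m : ℕ} {c : ℝ}
    (hf : ¬ unf G c u w (m + 1)) :
    (1 - c) * ((ball G u (m + 1)).card : ℝ) ≤ ((ball G w m).card : ℝ) := by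
  have h1 : ball G u (m + 1) ⊆ far G u w (m + 1) ∪ ball G w m := by
    intro s hs
    rw [Finset.mem_union]
    by_cases h2 : G.dist u s ≤ G.dist w s
    · exact Or.inl (Finset.mem_filter.2 ⟨hs, h2⟩)
    · right
      rw [H.mem] at *
      omega
  have h2 := (Finset.card_le_card h1).trans (Finset.card_union_le _ _)
  have h3 : ((ball G u (m + 1)).card : ℝ) ≤
      ((far G u w (m + 1)).card : ℝ) + ((ball G w m).card : ℝ) := by exact_mod_cast h2
  linarith [not_le.1 hf]

/-- many steps are unforced -/
theorem Hyp.unforced {z x : V} {R : ℕ} {c : ℝ} (hc0 : 0 ≤ c) (hc1 : c ≤ 1) {J : ℕ}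
    (hJ : J ≤ G.dist z x) (hJR : J ≤ R) :
    ((ball G z R).card : ℝ) * (1 - c) ^ J ≤ (((D : ℝ) + 1) ^ 2) ^
      ((Finset.range J).filter
        (fun i => unf G c (path G z x i) (path G z x (i + 1)) (R - i))).card *
      ((ball G (path G z x J) (R - J)).card : ℝ) := by
  induction J with
  | zero =>
    rw [Finset.range_zero, Finset.filter_empty, Finset.card_empty, pow_zero, pow_zero, mul_one,
      one_mul]
    exact le_rfl
  | succ J ih =>
    have h1 := ih (by omega) (by omega)
    have h2 := H.path_adj (z := z) (x := x) (i := J) (by omega)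
    have hR : R - J = (R - (J + 1)) + 1 := by omega
    rw [Finset.range_add_one, Finset.filter_insert]
    have h0 : (0 : ℝ) ≤ 1 - c := by linarith
    split_ifs with hif
    · rw [Finset.card_insert_of_notMem (by simp)]
      have h3 : ((ball G (path G z x J) (R - J)).card : ℝ) ≤
          ((D : ℝ) + 1) ^ 2 * ((ball G (path G z x (J + 1)) (R - (J + 1))).card : ℝ) := by
        rw [hR]
        exact_mod_cast H.card_adj h2 (R - (J + 1))
      calc ((ball G z R).card : ℝ) * (1 - c) ^ (J + 1)
          = (1 - c) * (((ball G z R).card : ℝ) * (1 - c) ^ J) := by ring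
        _ ≤ 1 * (((ball G z R).card : ℝ) * (1 - c) ^ J) := by
            apply mul_le_mul_of_nonneg_right (by linarith) (by positivity)
        _ = ((ball G z R).card : ℝ) * (1 - c) ^ J := by ring
        _ ≤ _ := h1
        _ ≤ _ := mul_le_mul_of_nonneg_left h3 (by positivity)
        _ = _ := by rw [pow_succ _ (Finset.card _)]; ring
    · rw [hR] at hif
      have h3 := H.forced hif
      rw [← hR] at h3
      calc ((ball G z R).card : ℝ) * (1 - c) ^ (J + 1)
          = (1 - c) * (((ball G z R).card : ℝ) * (1 - c) ^ J) := by ring
        _ ≤ (1 - c) * _ := mul_le_mul_of_nonneg_left h1 h0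
        _ = (((D : ℝ) + 1) ^ 2) ^
      ((Finset.range J).filter
        (fun i => unf G c (path G z x i) (path G z x (i + 1)) (R - i))).card *
            ((1 - c) * ((ball G (path G z x J) (R - J)).card : ℝ)) := by ring
        _ ≤ _ := mul_le_mul_of_nonneg_left h3 (by positivity)

end

end Pool.Agent.TH186.Balls
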