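import Mathlib
import Pool.Agent.TH186.Balls.Path

set_option autoImplicit false

open Finset

namespace Pool.Agent.TH186.Balls

universe u

open scoped Classical

variable {V : Type u}

/-- the part of the ball far from what an unforced step does not approach -/
noncomputable def bad (G : SimpleGraph V) (c : ℝ) (T : ℕ) (u w : V) (m : ℕ) : Finset V :=
  if unf G c u w m then ball G u m \ grow G (ball G u m) (far G u w m) T else ∅

/-- the vertices which may be bad at step `i` -/
noncomputable def badX (G : SimpleGraph V) (c : ℝ) (T : ℕ) (z : V) (R i : ℕ) : Finset V :=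
  (ball G z i).biUnion (fun u => (nb G u).biUnion (fun w => bad G c T u w (R - i)))

variable {G : SimpleGraph V} {D : ℕ} {h : ℝ}

section
variable (H : Hyp G D h)
include H

theorem Hyp.bad_card {c : ℝ} {Tc : ℕ} (hT : 1 ≤ (1 + h) ^ Tc * c) (t : ℕ) (u w : V) (m : ℕ) :
    (1 + h) ^ t * ((bad G c (Tc + t) u w m).card : ℝ) ≤ ((ball G u m).card : ℝ) := by
  unfold bad
  split_ifs with hif
  · exact H.grow_all (far_subset u w m) c hif Tc hT t
  · rw [Finset.card_empty, Nat.cast_zero, mul_zero]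
    exact Nat.cast_nonneg _

theorem Hyp.badX_card {c : ℝ} {Tc : ℕ} (hT : 1 ≤ (1 + h) ^ Tc * c) (t : ℕ) (z : V) (R i : ℕ)
    {M : ℝ} (hM : ∀ u, ((ball G u (R - i)).card : ℝ) ≤ M) :
    (1 + h) ^ t * ((badX G c (Tc + t) z R i).card : ℝ) ≤ ((ball G z i).card : ℝ) * (D * M) := by
  have hp := H.pos
  have hM0 : 0 ≤ M := (Nat.cast_nonneg _).trans (hM z)
  have h1 : ((badX G c (Tc + t) z R i).card : ℝ) ≤
      ∑ u ∈ ball G z i, ∑ w ∈ nb G u, ((bad G c (Tc + t) u w (R - i)).card : ℝ) := by
    have h2 : (badX G c (Tc + t) z R i).card ≤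
        ∑ u ∈ ball G z i, ∑ w ∈ nb G u, (bad G c (Tc + t) u w (R - i)).card :=
      Finset.card_biUnion_le.trans (Finset.sum_le_sum fun u _ => Finset.card_biUnion_le)
    exact_mod_cast h2
  calc (1 + h) ^ t * ((badX G c (Tc + t) z R i).card : ℝ)
      ≤ (1 + h) ^ t * ∑ u ∈ ball G z i, ∑ w ∈ nb G u, ((bad G c (Tc + t) u w (R - i)).card : ℝ) :=
        mul_le_mul_of_nonneg_left h1 (by positivity)
    _ = ∑ u ∈ ball G z i, ∑ w ∈ nb G u,
          (1 + h) ^ t * ((bad G c (Tc + t) u w (R - i)).card : ℝ) := by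
        simp only [Finset.mul_sum]
    _ ≤ ∑ u ∈ ball G z i, ∑ w ∈ nb G u, M :=
        Finset.sum_le_sum fun u _ => Finset.sum_le_sum fun w _ =>
          (H.bad_card hT t u w (R - i)).trans (hM u)
    _ ≤ ∑ u ∈ ball G z i, (D * M) := by
        refine Finset.sum_le_sum fun u _ => ?_
        rw [Finset.sum_const, nsmul_eq_mul]
        apply mul_le_mul_of_nonneg_right _ hM0
        exact_mod_cast H.deg u
    _ = ((ball G z i).card : ℝ) * (D * M) := by
        rw [Finset.sum_const, nsmul_eq_mul]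

theorem Hyp.not_badX {c : ℝ} {T : ℕ} {z x : V} {R i : ℕ} (hi : i < G.dist z x)
    (hx : x ∈ ball G z R) (hu : unf G c (path G z x i) (path G z x (i + 1)) (R - i))
    (hb : x ∉ badX G c T z R i) :
    ∃ s ∈ ball G x T, G.dist (path G z x i) s ≤ G.dist (path G z x (i + 1)) s := by
  have h1 : x ∈ ball G (path G z x i) (R - i) := by
    rw [H.mem] at *
    have := H.path_dist hi.le
    omega
  have h2 : x ∈ grow G (ball G (path G z x i) (R - i))
      (far G (path G z x i) (path G z x (i + 1)) (R - i)) T := by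
    by_contra h3
    apply hb
    unfold badX
    rw [Finset.mem_biUnion]
    refine ⟨path G z x i, H.mem.2 (H.path_near hi.le), ?_⟩
    rw [Finset.mem_biUnion]
    refine ⟨path G z x (i + 1), H.mem_nb.2 (H.path_adj hi), ?_⟩
    unfold bad
    rw [if_pos hu, Finset.mem_sdiff]
    exact ⟨h1, h3⟩
  obtain ⟨s, hs, hd⟩ := grow_dist H.conn T x h2
  refine ⟨s, ?_, (Finset.mem_filter.1 hs).2⟩
  rw [H.mem, SimpleGraph.dist_comm]
  exact hd

/-- the count along one walk -/
theorem Hyp.walk_count {c : ℝ} {T : ℕ} {z x : V} {R J : ℕ} (hJ : J ≤ G.dist z x)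
    (hx : x ∈ ball G z R) :
    ((Finset.range J).filter
      (fun i => unf G c (path G z x i) (path G z x (i + 1)) (R - i))).card ≤
    ((Finset.range J).filter (fun i => x ∈ badX G c T z R i)).card + (D + 1) ^ T * (2 * T) := by
  have h1 : (Finset.range J).filter
      (fun i => unf G c (path G z x i) (path G z x (i + 1)) (R - i)) ⊆
      (Finset.range J).filter (fun i => x ∈ badX G c T z R i) ∪
      (ball G x T).biUnion (fun s => (Finset.range J).filter
        (fun i => G.dist (path G z x i) s ≤ G.dist (path G z x (i + 1)) s)) := by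
    intro i hi
    obtain ⟨hi1, hi2⟩ := Finset.mem_filter.1 hi
    rw [Finset.mem_union]
    by_cases hb : x ∈ badX G c T z R i
    · exact Or.inl (Finset.mem_filter.2 ⟨hi1, hb⟩)
    · right
      obtain ⟨s, hs, hd⟩ := H.not_badX (lt_of_lt_of_le (Finset.mem_range.1 hi1) hJ) hx hi2 hb
      exact Finset.mem_biUnion.2 ⟨s, hs, Finset.mem_filter.2 ⟨hi1, hd⟩⟩
  refine (Finset.card_le_card h1).trans ((Finset.card_union_le _ _).trans ?_)
  apply Nat.add_le_add_left
  refine (Finset.card_biUnion_le_card_mul _ _ (2 * T) ?_).trans ?_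
  · intro s hs
    apply H.jumps _ hJ
    rw [SimpleGraph.dist_comm]
    exact H.mem.1 hs
  · exact Nat.mul_le_mul_right _ (H.card_le x T)

theorem Hyp.core {c : ℝ} (hc0 : 0 < c) (hc1 : c < 1) {ρ : ℝ} (hρ : 0 < ρ) {q : ℕ}
    (hq : 8 * ((D : ℝ) + 1) ^ 2 ≤ ρ ^ q) {Tc : ℕ} (hTc : 1 ≤ (1 + h) ^ Tc * c) {L R : ℕ}
    (hL : 1 ≤ L) (hR : 2 * (q * L) ≤ R) (z : V) {lam Lam : ℝ} (hlam : ρ ≤ (1 - c) * lam)
    (h1 : ∀ i ≤ q * L, ∀ v, ((ball G v (R - i)).card : ℝ) * lam ^ i ≤ 2 * ((ball G z R).card : ℝ))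
    (h2 : ∀ i ≤ q * L, ((ball G z i).card : ℝ) ≤ Lam * lam ^ i) {t : ℕ}
    (ht : 16 * (q * (D * Lam)) ≤ (1 + h) ^ t) :
    3 * L ≤ 8 * ((D + 1) ^ (Tc + t) * (Tc + t)) := by
  have hp := H.pos
  set T := Tc + t with hT
  set N : ℝ := ((ball G z R).card : ℝ) with hN
  have hN0 : 0 < N := by
    rw [hN]
    exact_mod_cast H.card_pos z R
  have hc' : 0 < 1 - c := by linarith
  have hlam0 : 0 < lam := by
    by_contra hcon
    have : (1 - c) * lam ≤ 0 := mul_nonpos_of_nonneg_of_nonpos hc'.le (not_lt.1 hcon)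
    linarith
  have hlamρ : ρ ≤ lam := by
    calc ρ ≤ (1 - c) * lam := hlam
      _ ≤ 1 * lam := mul_le_mul_of_nonneg_right (by linarith) hlam0.le
      _ = lam := one_mul _
  have hK1 : (1 : ℝ) ≤ ((D : ℝ) + 1) ^ 2 := by
    have : (1 : ℝ) ≤ (D : ℝ) + 1 := by
      have : (0 : ℝ) ≤ (D : ℝ) := Nat.cast_nonneg _
      linarith
    exact one_le_pow₀ this
  set K : ℝ := ((D : ℝ) + 1) ^ 2 with hK
  have hρq : (8 * K) ^ L ≤ ρ ^ (q * L) := by
    rw [pow_mul]
    exact pow_le_pow_left₀ (by linarith) hq L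
  have h8L : (8 : ℝ) ≤ 8 ^ L := by
    calc (8 : ℝ) = 8 ^ 1 := by norm_num
      _ ≤ 8 ^ L := pow_le_pow_right₀ (by norm_num) hL
  have hKL : (1 : ℝ) ≤ K ^ L := one_le_pow₀ hK1
  have hlam8 : 8 ≤ lam ^ (q * L) := by
    calc (8 : ℝ) ≤ 8 ^ L := h8L
      _ ≤ 8 ^ L * K ^ L := le_mul_of_one_le_right (by positivity) hKL
      _ = (8 * K) ^ L := (mul_pow _ _ _).symm
      _ ≤ ρ ^ (q * L) := hρq
      _ ≤ lam ^ (q * L) := pow_le_pow_left₀ hρ.le hlamρ _
  -- the far vertices
  set X := (ball G z R).filter (fun x => q * L ≤ G.dist z x) with hX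
  have hXN : N ≤ 2 * (X.card : ℝ) := by
    have h3 : ball G z R ⊆ X ∪ ball G z (q * L) := by
      intro x hx
      rw [Finset.mem_union]
      by_cases h4 : q * L ≤ G.dist z x
      · exact Or.inl (Finset.mem_filter.2 ⟨hx, h4⟩)
      · right
        rw [H.mem]
        omega
    have h4 := (Finset.card_le_card h3).trans (Finset.card_union_le _ _)
    have h5 : N ≤ (X.card : ℝ) + ((ball G z (q * L)).card : ℝ) := by
      rw [hN]
      exact_mod_cast h4
    have h6 : ((ball G z (q * L)).card : ℝ) ≤ ((ball G z (R - q * L)).card : ℝ) := by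
      have : q * L ≤ R - q * L := by omega
      exact_mod_cast Finset.card_le_card (H.mono z this)
    have h7 := h1 (q * L) le_rfl z
    have h8 : ((ball G z (R - q * L)).card : ℝ) * 8 ≤ 2 * N := by
      refine le_trans ?_ h7
      exact mul_le_mul_of_nonneg_left hlam8 (Nat.cast_nonneg _)
    linarith
  -- unforced steps
  have hU : ∀ x ∈ X, L ≤ ((Finset.range (q * L)).filter
      (fun i => unf G c (path G z x i) (path G z x (i + 1)) (R - i))).card := by
    intro x hx
    obtain ⟨hx1, hx2⟩ := Finset.mem_filter.1 hx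
    by_contra hcon
    have h3 := H.unforced (z := z) (x := x) (R := R) hc0.le hc1.le hx2 (by omega)
    set U := ((Finset.range (q * L)).filter
      (fun i => unf G c (path G z x i) (path G z x (i + 1)) (R - i))).card with hUd
    have h4 : N * ρ ^ (q * L) ≤ N * (2 * K ^ U) := by
      calc N * ρ ^ (q * L) ≤ N * ((1 - c) * lam) ^ (q * L) :=
            mul_le_mul_of_nonneg_left (pow_le_pow_left₀ hρ.le hlam _) hN0.le
        _ = (N * (1 - c) ^ (q * L)) * lam ^ (q * L) := by rw [mul_pow]; ring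
        _ ≤ (K ^ U * ((ball G (path G z x (q * L)) (R - q * L)).card : ℝ)) * lam ^ (q * L) :=
            mul_le_mul_of_nonneg_right h3 (by positivity)
        _ = K ^ U * (((ball G (path G z x (q * L)) (R - q * L)).card : ℝ) * lam ^ (q * L)) := by
            ring
        _ ≤ K ^ U * (2 * N) := mul_le_mul_of_nonneg_left (h1 _ le_rfl _) (by positivity)
        _ = N * (2 * K ^ U) := by ring
    have h5 : ρ ^ (q * L) ≤ 2 * K ^ U := le_of_mul_le_mul_left h4 hN0
    have h6 : K ^ U ≤ K ^ L := pow_le_pow_right₀ hK1 (by omega)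
    have h7 : (8 * K) ^ L = 8 ^ L * K ^ L := mul_pow _ _ _
    have h8 : 8 * K ^ L ≤ 8 ^ L * K ^ L := mul_le_mul_of_nonneg_right h8L (by positivity)
    linarith
  -- bad steps
  have hB : ∀ i ∈ Finset.range (q * L),
      (1 + h) ^ t * ((badX G c T z R i).card : ℝ) ≤ 2 * (D * Lam) * N := by
    intro i hi
    have hi' : i ≤ q * L := (Finset.mem_range.1 hi).le
    have hpow : 0 < lam ^ i := by positivity
    have h3 := H.badX_card hTc t z R i (M := 2 * N / lam ^ i) (by
      intro u
      rw [le_div_iff₀ hpow]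
      exact h1 i hi' u)
    refine h3.trans ?_
    have hM0 : 0 ≤ (D : ℝ) * (2 * N / lam ^ i) := by positivity
    calc ((ball G z i).card : ℝ) * (D * (2 * N / lam ^ i))
        ≤ (Lam * lam ^ i) * (D * (2 * N / lam ^ i)) := mul_le_mul_of_nonneg_right (h2 i hi') hM0
      _ = 2 * (D * Lam) * N := by field_simp
  have hsum : ∑ x ∈ X, (((Finset.range (q * L)).filter (fun i => x ∈ badX G c T z R i)).card : ℝ) ≤
      ∑ i ∈ Finset.range (q * L), ((badX G c T z R i).card : ℝ) := by
    have h3 : ∑ x ∈ X, ((Finset.range (q * L)).filter (fun i => x ∈ badX G c T z R i)).card =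
        ∑ i ∈ Finset.range (q * L), (X.filter (fun x => x ∈ badX G c T z R i)).card :=
      Finset.sum_card_bipartiteAbove_eq_sum_card_bipartiteBelow (fun x i => x ∈ badX G c T z R i)
    have h4 : ∑ i ∈ Finset.range (q * L), (X.filter (fun x => x ∈ badX G c T z R i)).card ≤
        ∑ i ∈ Finset.range (q * L), (badX G c T z R i).card := by
      refine Finset.sum_le_sum fun i _ => Finset.card_le_card ?_
      intro x hx
      exact (Finset.mem_filter.1 hx).2
    rw [← h3] at h4
    exact_mod_cast h4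
  have hex : ∃ x ∈ X, 4 * ((Finset.range (q * L)).filter (fun i => x ∈ badX G c T z R i)).card ≤ L := by
    by_contra hcon
    push Not at hcon
    have hXne : X.Nonempty := by
      rw [Finset.nonempty_iff_ne_empty]
      intro he
      rw [he, Finset.card_empty, Nat.cast_zero, mul_zero] at hXN
      linarith
    have h3 : (X.card : ℝ) * L < ∑ x ∈ X, 4 *
        (((Finset.range (q * L)).filter (fun i => x ∈ badX G c T z R i)).card : ℝ) := by
      calc (X.card : ℝ) * L = ∑ x ∈ X, (L : ℝ) := by rw [Finset.sum_const, nsmul_eq_mul]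
        _ < _ := Finset.sum_lt_sum_of_nonempty hXne (by
            intro x hx
            exact_mod_cast hcon x hx)
    rw [← Finset.mul_sum] at h3
    have ht0 : 0 < (1 + h) ^ t := by positivity
    have h4 : (1 + h) ^ t * ∑ i ∈ Finset.range (q * L), ((badX G c T z R i).card : ℝ) ≤
        (q * L) * (2 * (D * Lam) * N) := by
      rw [Finset.mul_sum]
      refine (Finset.sum_le_sum hB).trans ?_
      rw [Finset.sum_const, nsmul_eq_mul, Finset.card_range]
      push_cast
      exact le_rfl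
    have hL0 : (0 : ℝ) < L := by exact_mod_cast hL
    have h5 : (1 + h) ^ t * (N * L) < 16 * (q * (D * Lam)) * (N * L) := by
      calc (1 + h) ^ t * (N * L) ≤ (1 + h) ^ t * ((2 * (X.card : ℝ)) * L) := by
            apply mul_le_mul_of_nonneg_left _ ht0.le
            exact mul_le_mul_of_nonneg_right hXN hL0.le
        _ = 2 * ((1 + h) ^ t * ((X.card : ℝ) * L)) := by ring
        _ < 2 * ((1 + h) ^ t * (4 * ∑ x ∈ X,
            (((Finset.range (q * L)).filter (fun i => x ∈ badX G c T z R i)).card : ℝ))) := by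
            apply mul_lt_mul_of_pos_left _ (by norm_num)
            exact mul_lt_mul_of_pos_left h3 ht0
        _ ≤ 2 * ((1 + h) ^ t * (4 * ∑ i ∈ Finset.range (q * L), ((badX G c T z R i).card : ℝ))) := by
            apply mul_le_mul_of_nonneg_left _ (by norm_num)
            apply mul_le_mul_of_nonneg_left _ ht0.le
            exact mul_le_mul_of_nonneg_left hsum (by norm_num)
        _ = 8 * ((1 + h) ^ t * ∑ i ∈ Finset.range (q * L), ((badX G c T z R i).card : ℝ)) := by ring
        _ ≤ 8 * ((q * L) * (2 * (D * Lam) * N)) := mul_le_mul_of_nonneg_left h4 (by norm_num)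
        _ = 16 * (q * (D * Lam)) * (N * L) := by ring
    have h6 : 16 * (q * (D * Lam)) * (N * L) ≤ (1 + h) ^ t * (N * L) :=
      mul_le_mul_of_nonneg_right ht (by positivity)
    linarith
  obtain ⟨x, hx, hb⟩ := hex
  obtain ⟨hx1, hx2⟩ := Finset.mem_filter.1 hx
  have h3 := hU x hx
  have h4 := H.walk_count (c := c) (T := T) hx2 hx1
  have h5 : (D + 1) ^ T * (2 * T) = 2 * ((D + 1) ^ T * T) := by ring
  omega

end

end Pool.Agent.TH186.Balls
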