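import Mathlib
import Pool.Agent.TH186.Balls.Core

set_option autoImplicit false

open Finset

namespace Pool.Agent.TH186.Balls

universe u

open scoped Classical

theorem bound (D : ℕ) (h g : ℝ) (hh : 0 < h) (hg : 0 < g) : ∃ C : ℝ, 0 < C ∧ ∃ k : ℕ,
    ∀ (V : Type u) (G : SimpleGraph V), Hyp G D h → ∀ (J R : ℕ) (z : V) (lam Lam : ℝ),
      1 + g ≤ lam → 2 * J ≤ R →
      (∀ i ≤ J, ∀ v, ((ball G v (R - i)).card : ℝ) * lam ^ i ≤ 2 * ((ball G z R).card : ℝ)) →
      (∀ i ≤ J, ((ball G z i).card : ℝ) ≤ Lam * lam ^ i) → (J : ℝ) ≤ C * Lam ^ k := by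
  have hρ1 : (1 : ℝ) < 1 + g / 2 := by linarith
  have hh1 : (1 : ℝ) < 1 + h := by linarith
  set c : ℝ := (g / 2) / (1 + g) with hc
  have hc0 : 0 < c := by positivity
  have hc1 : c < 1 := by
    rw [hc, div_lt_one (by linarith)]
    linarith
  have hcg : (1 - c) * (1 + g) = 1 + g / 2 := by
    rw [hc]
    field_simp
    ring
  obtain ⟨q, hq⟩ := pow_unbounded_of_one_lt (8 * ((D : ℝ) + 1) ^ 2) hρ1
  obtain ⟨Tc, hTc⟩ := pow_unbounded_of_one_lt (1 / c) hh1
  obtain ⟨k, hk⟩ := pow_unbounded_of_one_lt (2 * ((D : ℝ) + 1)) hh1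
  have hTc' : 1 ≤ (1 + h) ^ Tc * c := ((div_lt_iff₀ hc0).1 hTc).le
  have hD0 : (0 : ℝ) ≤ D := Nat.cast_nonneg _
  have hq1 : 1 ≤ q := by
    rcases Nat.eq_zero_or_pos q with h0 | h0
    · rw [h0, pow_zero] at hq
      nlinarith
    · exact h0
  have hq1' : (1 : ℝ) ≤ q := by exact_mod_cast hq1
  set W : ℝ := (1 + h) ^ (Tc + 1) * (16 * (q * ((D : ℝ) + 1))) with hW
  have hW1 : 1 ≤ W := by
    have h1 : (1 : ℝ) ≤ (1 + h) ^ (Tc + 1) := one_le_pow₀ hh1.le
    have h2 : (1 : ℝ) ≤ 16 * (q * ((D : ℝ) + 1)) := by nlinarith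
    calc (1 : ℝ) = 1 * 1 := (one_mul _).symm
      _ ≤ W := mul_le_mul h1 h2 (by norm_num) (by positivity)
  refine ⟨6 * q * W ^ k, by positivity, k, ?_⟩
  intro V G H J R z lam Lam hlam hR h1 h2
  have hLam1 : 1 ≤ Lam := by
    have h3 := h2 0 (Nat.zero_le _)
    rw [H.card_zero, pow_zero, mul_one] at h3
    exact_mod_cast h3
  have hWL : 1 ≤ W ^ k * Lam ^ k := by
    rw [← mul_pow]
    exact one_le_pow₀ (by nlinarith)
  set L := J / q with hLd
  have hJL : J < q * (L + 1) := by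
    have := Nat.lt_mul_div_succ J (show 0 < q by omega)
    rwa [← hLd] at this
  have hJL' : q * L ≤ J := Nat.mul_div_le J q
  rcases Nat.eq_zero_or_pos L with hL0 | hL1
  · rw [hL0, zero_add, mul_one] at hJL
    have h3 : (J : ℝ) ≤ q := by exact_mod_cast hJL.le
    calc (J : ℝ) ≤ q := h3
      _ ≤ 6 * q := by linarith
      _ = 6 * q * 1 := (mul_one _).symm
      _ ≤ 6 * q * (W ^ k * Lam ^ k) := mul_le_mul_of_nonneg_left hWL (by positivity)
      _ = _ := by ring
  · have hA : 1 ≤ 16 * (q * (((D : ℝ) + 1) * Lam)) := by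
      have h3 : 1 ≤ ((D : ℝ) + 1) * Lam := by nlinarith
      nlinarith
    obtain ⟨n, hn1, hn2⟩ := exists_nat_pow_near hA hh1
    have ht : 16 * (q * (D * Lam)) ≤ (1 + h) ^ (n + 1) := by
      refine le_trans ?_ hn2.le
      have h3 : (D : ℝ) * Lam ≤ ((D : ℝ) + 1) * Lam := by nlinarith
      have h4 : (q : ℝ) * (D * Lam) ≤ q * (((D : ℝ) + 1) * Lam) :=
        mul_le_mul_of_nonneg_left h3 (by linarith)
      linarith
    have hlam' : 1 + g / 2 ≤ (1 - c) * lam := by
      rw [← hcg]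
      exact mul_le_mul_of_nonneg_left hlam (by linarith)
    have h3 := H.core hc0 hc1 (by linarith : (0 : ℝ) < 1 + g / 2) hq.le hTc' hL1
      (R := R) (by omega) z hlam' (fun i hi v => h1 i (by omega) v) (fun i hi => h2 i (by omega)) ht
    set T := Tc + (n + 1) with hT
    have h4 : ((3 * L : ℕ) : ℝ) ≤ ((8 * ((D + 1) ^ T * T) : ℕ) : ℝ) := by exact_mod_cast h3
    push_cast at h4
    have h5 : (T : ℝ) ≤ 2 ^ T := by exact_mod_cast (Nat.lt_two_pow_self (n := T)).le
    have h6 : ((D : ℝ) + 1) ^ T * T ≤ (W * Lam) ^ k := by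
      calc ((D : ℝ) + 1) ^ T * T ≤ ((D : ℝ) + 1) ^ T * 2 ^ T :=
            mul_le_mul_of_nonneg_left h5 (by positivity)
        _ = (2 * ((D : ℝ) + 1)) ^ T := by rw [mul_pow]; ring
        _ ≤ ((1 + h) ^ k) ^ T := pow_le_pow_left₀ (by positivity) hk.le T
        _ = ((1 + h) ^ T) ^ k := by rw [← pow_mul, ← pow_mul, mul_comm]
        _ ≤ (W * Lam) ^ k := by
            apply pow_le_pow_left₀ (by positivity)
            calc (1 + h) ^ T = (1 + h) ^ (Tc + 1) * (1 + h) ^ n := by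
                  rw [← pow_add, hT]; congr 1; ring
              _ ≤ (1 + h) ^ (Tc + 1) * (16 * (q * (((D : ℝ) + 1) * Lam))) :=
                  mul_le_mul_of_nonneg_left hn1 (by positivity)
              _ = W * Lam := by rw [hW]; ring
    have h7 : (L : ℝ) ≤ 3 * (W * Lam) ^ k := by
      have : 0 ≤ (W * Lam) ^ k := by positivity
      linarith
    have h8 : (J : ℝ) ≤ q * (L + 1) := by exact_mod_cast hJL.le
    have h9 : (1 : ℝ) ≤ L := by exact_mod_cast hL1
    calc (J : ℝ) ≤ q * (L + 1) := h8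
      _ ≤ q * (2 * L) := mul_le_mul_of_nonneg_left (by linarith) (by linarith)
      _ ≤ q * (2 * (3 * (W * Lam) ^ k)) := mul_le_mul_of_nonneg_left (by linarith) (by linarith)
      _ = _ := by rw [mul_pow]; ring

theorem chain (D : ℕ) (lam : ℝ) (hlam : 1 ≤ lam) (M : ℕ → ℝ) (J : ℕ) (hJ : 1 ≤ J)
    (hM : ∀ r ≤ J * (2 * J * (D + 1) + 2), lam ^ r ≤ M r) (hMD : ∀ r, M r ≤ ((D : ℝ) + 1) ^ r) :
    ∃ R, 2 * J ≤ R ∧ ∀ i ≤ J, M (R - i) * lam ^ i ≤ 2 * M R := by
  by_contra hcon
  push Not at hcon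
  set R0 := J * (2 * J * (D + 1) + 2) with hR0
  have hlam0 : 0 < lam := by linarith
  have key : ∀ n R, R ≤ n → R ≤ R0 → ∃ r < 2 * J,
      2 ^ (R / J - 1) * M R * lam ^ r ≤ M r * lam ^ R := by
    intro n
    induction n with
    | zero =>
      intro R hR _
      obtain rfl : R = 0 := by omega
      refine ⟨0, by omega, ?_⟩
      rw [Nat.zero_div]
      simp
    | succ n ih =>
      intro R hR hR0'
      by_cases hRJ : R < 2 * J
      · refine ⟨R, hRJ, ?_⟩
        have h1 : R / J - 1 = 0 := by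
          have : R / J < 2 := (Nat.div_lt_iff_lt_mul (by omega)).2 hRJ
          omega
        rw [h1, pow_zero, one_mul]
      · have hRJ' : 2 * J ≤ R := by omega
        obtain ⟨i, hi, h1⟩ := hcon R hRJ'
        have hMR : 0 < M R := lt_of_lt_of_le (by positivity) (hM R hR0')
        have hi0 : i ≠ 0 := by
          rintro rfl
          rw [Nat.sub_zero, pow_zero, mul_one] at h1
          linarith
        obtain ⟨r, hr, h2⟩ := ih (R - i) (by omega) (by omega)
        refine ⟨r, hr, ?_⟩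
        have h3 : R / J - 1 ≤ ((R - i) / J - 1) + 1 := by
          have h4 : R / J = (R - J) / J + 1 := by
            rw [← Nat.add_div_right _ (show 0 < J by omega)]
            congr 1
            omega
          have h5 : (R - J) / J ≤ (R - i) / J := Nat.div_le_div_right (by omega)
          omega
        have h4 : (2 : ℝ) ^ (R / J - 1) ≤ 2 ^ ((R - i) / J - 1) * 2 := by
          rw [← pow_succ]
          exact pow_le_pow_right₀ (by norm_num) h3
        calc 2 ^ (R / J - 1) * M R * lam ^ r = 2 ^ (R / J - 1) * (M R * lam ^ r) := by ring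
          _ ≤ (2 ^ ((R - i) / J - 1) * 2) * (M R * lam ^ r) :=
              mul_le_mul_of_nonneg_right h4 (by positivity)
          _ = (2 ^ ((R - i) / J - 1) * lam ^ r) * (2 * M R) := by ring
          _ ≤ (2 ^ ((R - i) / J - 1) * lam ^ r) * (M (R - i) * lam ^ i) :=
              mul_le_mul_of_nonneg_left h1.le (by positivity)
          _ = (2 ^ ((R - i) / J - 1) * M (R - i) * lam ^ r) * lam ^ i := by ring
          _ ≤ (M r * lam ^ (R - i)) * lam ^ i := mul_le_mul_of_nonneg_right h2 (by positivity)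
          _ = M r * (lam ^ (R - i) * lam ^ i) := by ring
          _ = M r * lam ^ R := by rw [← pow_add, Nat.sub_add_cancel (by omega)]
  obtain ⟨r, hr, h1⟩ := key R0 R0 le_rfl le_rfl
  have hMR : 0 < M R0 := lt_of_lt_of_le (by positivity) (hM R0 le_rfl)
  have hr0 : r ≤ R0 := by
    have : 2 * J ≤ R0 := by
      rw [hR0]
      calc 2 * J = J * 2 := by ring
        _ ≤ _ := Nat.mul_le_mul_left _ (by omega)
    omega
  have hMr : 0 < M r := lt_of_lt_of_le (by positivity) (hM r hr0)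
  have hdiv : R0 / J - 1 = 2 * J * (D + 1) + 1 := by
    rw [hR0, Nat.mul_div_cancel_left _ (by omega : 0 < J)]
    omega
  rw [hdiv] at h1
  have h2 : (2 : ℝ) ^ (2 * J * (D + 1) + 1) * lam ^ r ≤ M r := by
    have h3 : (2 : ℝ) ^ (2 * J * (D + 1) + 1) * lam ^ r * M R0 ≤ M r * M R0 := by
      calc (2 : ℝ) ^ (2 * J * (D + 1) + 1) * lam ^ r * M R0 =
            2 ^ (2 * J * (D + 1) + 1) * M R0 * lam ^ r := by ring
        _ ≤ M r * lam ^ R0 := h1
        _ ≤ M r * M R0 := mul_le_mul_of_nonneg_left (hM R0 le_rfl) hMr.le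
    exact le_of_mul_le_mul_right h3 hMR
  have h3 : (1 : ℝ) ≤ lam ^ r := one_le_pow₀ hlam
  have hD1 : (1 : ℝ) ≤ (D : ℝ) + 1 := by
    have : (0 : ℝ) ≤ D := Nat.cast_nonneg _
    linarith
  have h4 : M r ≤ 2 ^ (2 * J * (D + 1)) := by
    calc M r ≤ ((D : ℝ) + 1) ^ r := hMD r
      _ ≤ ((D : ℝ) + 1) ^ (2 * J) := pow_le_pow_right₀ hD1 hr.le
      _ ≤ (2 ^ (D + 1)) ^ (2 * J) := by
          apply pow_le_pow_left₀ (by positivity)
          exact_mod_cast (Nat.lt_two_pow_self (n := D + 1)).le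
      _ = 2 ^ (2 * J * (D + 1)) := by rw [← pow_mul]; congr 1; ring
  have h5 : (2 : ℝ) ^ (2 * J * (D + 1) + 1) = 2 * 2 ^ (2 * J * (D + 1)) := by
    rw [pow_succ]; ring
  have h6 : (0 : ℝ) < 2 ^ (2 * J * (D + 1)) := by positivity
  rw [h5] at h2
  nlinarith

theorem main (D : ℕ) (h : ℝ) (hh : 0 < h) : ∃ C : ℝ, 0 < C ∧ ∃ k : ℕ,
    ∀ (V : Type u) (G : SimpleGraph V), Hyp G D h → ∀ J : ℕ, 1 ≤ J → ∀ lam : ℝ, 0 < lam →
      (∀ r ≤ J * (2 * J * (D + 1) + 2), ∃ v, lam ^ r ≤ ((ball G v r).card : ℝ)) →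
      (∀ r ≤ J * (2 * J * (D + 1) + 2), ∃ v, (1 + h) ^ r ≤ ((ball G v r).card : ℝ)) →
      ∃ j ≤ J, ∃ v, (J : ℝ) ≤ C * (((ball G v j).card : ℝ) / lam ^ j) ^ k := by
  obtain ⟨C, hC, k, hCk⟩ := bound.{u} D h h hh hh
  refine ⟨C, hC, k, ?_⟩
  intro V G H J hJ lam0 hlam0 hl1 hl2
  set lam := max lam0 (1 + h) with hlam
  have hlam1 : 1 + h ≤ lam := le_max_right _ _
  have hl : ∀ r ≤ J * (2 * J * (D + 1) + 2), ∃ v, lam ^ r ≤ ((ball G v r).card : ℝ) := by
    intro r hr
    rcases max_cases lam0 (1 + h) with ⟨he, _⟩ | ⟨he, _⟩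
    · rw [hlam, he]
      exact hl1 r hr
    · rw [hlam, he]
      exact hl2 r hr
  have hmax : ∀ r, ∃ v, ∀ w, (ball G w r).card ≤ (ball G v r).card := by
    intro r
    have := H.conn.nonempty
    have hfin : (Set.range fun v => (ball G v r).card).Finite := by
      refine (Set.finite_Iic ((D + 1) ^ r)).subset ?_
      rintro _ ⟨v, rfl⟩
      exact H.card_le v r
    obtain ⟨m, ⟨v, rfl⟩, hm⟩ := hfin.exists_maximal (Set.range_nonempty _)
    refine ⟨v, fun w => ?_⟩
    rcases le_total (ball G w r).card (ball G v r).card with h1 | h1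
    · exact h1
    · exact hm ⟨w, rfl⟩ h1
  choose m hm using hmax
  obtain ⟨R, hR, h1⟩ := chain D lam (by linarith) (fun r => ((ball G (m r) r).card : ℝ)) J hJ
    (by
      intro r hr
      obtain ⟨v, hv⟩ := hl r hr
      refine hv.trans ?_
      exact_mod_cast hm r v)
    (by
      intro r
      exact_mod_cast H.card_le (m r) r)
  obtain ⟨j, hj, hjmax⟩ := Finset.exists_max_image (Finset.range (J + 1))
    (fun j => ((ball G (m j) j).card : ℝ) / lam ^ j) ⟨0, by simp⟩
  have hj' : j ≤ J := by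
    have := Finset.mem_range.1 hj
    omega
  have hlampos : 0 < lam := by linarith
  refine ⟨j, hj', m j, ?_⟩
  have h2 := hCk V G H J R (m R) lam (((ball G (m j) j).card : ℝ) / lam ^ j) hlam1 hR
    (by
      intro i hi v
      refine le_trans ?_ (h1 i hi)
      apply mul_le_mul_of_nonneg_right _ (by positivity)
      exact_mod_cast hm (R - i) v)
    (by
      intro i hi
      have h3 := hjmax i (Finset.mem_range.2 (by omega))
      have h4 : ((ball G (m i) i).card : ℝ) ≤ ((ball G (m j) j).card : ℝ) / lam ^ j * lam ^ i := by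
        rwa [div_le_iff₀ (by positivity)] at h3
      refine le_trans ?_ h4
      exact_mod_cast hm i (m R))
  refine h2.trans ?_
  apply mul_le_mul_of_nonneg_left _ hC.le
  apply pow_le_pow_left₀ (by positivity)
  apply div_le_div_of_nonneg_left (by positivity) (by positivity)
  exact pow_le_pow_left₀ hlam0.le (le_max_left _ _) j

variable {V : Type u} {G : SimpleGraph V} {D : ℕ} {h : ℝ}

section
variable (H : Hyp G D h)
include H

theorem Hyp.cover (v : V) (s : Finset V) : ∃ r0, ∀ r, r0 ≤ r → s ⊆ ball G v r := by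
  refine ⟨s.sup (fun w => G.dist v w), fun r hr w hw => ?_⟩
  rw [H.mem]
  exact (Finset.le_sup (f := fun w => G.dist v w) hw).trans hr

theorem Hyp.growth {v : V} {r : ℕ} {s : Finset V} (hs : 2 * (ball G v r).card ≤ s.card) :
    (1 + h) * ((ball G v r).card : ℝ) ≤ ((ball G v (r + 1)).card : ℝ) := by
  obtain ⟨r0, hr0⟩ := H.cover v s
  have h1 : ball G v r ⊆ ball G v (max r0 r) := H.mono v (le_max_right _ _)
  have h2 : s ⊆ ball G v (max r0 r) := hr0 _ (le_max_left _ _)
  have h3 := H.exp v (max r0 r) (ball G v r) h1 (hs.trans (Finset.card_le_card h2))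
  have h4 : (ball G v r) ∪ (ball G v (max r0 r)).filter
      (fun w => w ∉ ball G v r ∧ ∃ u ∈ ball G v r, G.Adj u w) ⊆ ball G v (r + 1) := by
    refine Finset.union_subset (H.mono v (by omega)) ?_
    intro w hw
    obtain ⟨_, _, u, hu, ha⟩ := Finset.mem_filter.1 hw
    rw [H.mem] at *
    have h5 := H.conn.dist_triangle (u := v) (v := u) (w := w)
    have h6 : G.dist u w = 1 := SimpleGraph.dist_eq_one_iff_adj.2 ha
    omega
  have h5 : Disjoint (ball G v r) ((ball G v (max r0 r)).filter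
      (fun w => w ∉ ball G v r ∧ ∃ u ∈ ball G v r, G.Adj u w)) := by
    rw [Finset.disjoint_left]
    intro a ha hb
    exact (Finset.mem_filter.1 hb).2.1 ha
  have h6 := Finset.card_le_card h4
  rw [Finset.card_union_of_disjoint h5] at h6
  have h7 : ((ball G v r).card : ℝ) + (((ball G v (max r0 r)).filter
      (fun w => w ∉ ball G v r ∧ ∃ u ∈ ball G v r, G.Adj u w)).card : ℝ) ≤
      ((ball G v (r + 1)).card : ℝ) := by exact_mod_cast h6
  linarith

theorem Hyp.growth_pow {v : V} {n : ℕ} {s : Finset V} (hs : 2 * (ball G v n).card ≤ s.card) :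
    ∀ r ≤ n, (1 + h) ^ r ≤ ((ball G v r).card : ℝ) := by
  have hp := H.pos
  intro r
  induction r with
  | zero =>
    intro _
    rw [H.card_zero, pow_zero]
    norm_num
  | succ r ih =>
    intro hr
    have h1 := ih (by omega)
    have h2 := Finset.card_le_card (H.mono v (show r ≤ n by omega))
    have h3 := H.growth (v := v) (r := r) (s := s) (by omega)
    calc (1 + h) ^ (r + 1) = (1 + h) * (1 + h) ^ r := by ring
      _ ≤ (1 + h) * ((ball G v r).card : ℝ) := mul_le_mul_of_nonneg_left h1 (by linarith)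
      _ ≤ _ := h3

end

end Pool.Agent.TH186.Balls
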