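import Mathlib
import Pool.Agent.TH186.Balls.Basic

set_option autoImplicit false

open Finset

namespace Pool.Agent.TH186.Balls

universe u

open scoped Classical

variable {V : Type u}

/-- balls around one vertex expand -/
structure HypAt (G : SimpleGraph V) (o : V) (h : ℝ) : Prop where
  conn : G.Connected
  fin : ∀ v, (G.neighborSet v).Finite
  inf : Infinite V
  pos : 0 < h
  exp : ∀ (r : ℕ) (S : Finset V), S ⊆ ball G o r → 2 * S.card ≤ (ball G o r).card →
    h * (S.card : ℝ) ≤ (((ball G o r).filter (fun w => w ∉ S ∧ ∃ u ∈ S, G.Adj u w)).card : ℝ)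

/-- the points of the ball where `f` is at most `k` -/
noncomputable def low (G : SimpleGraph V) (o : V) (r : ℕ) (f : V → ℕ) (k : ℕ) : Finset V :=
  (ball G o r).filter (fun x => f x ≤ k)

/-- the points of the ball where `f` is larger than `k` -/
noncomputable def high (G : SimpleGraph V) (o : V) (r : ℕ) (f : V → ℕ) (k : ℕ) : Finset V :=
  (ball G o r).filter (fun x => k < f x)

variable {G : SimpleGraph V} {o : V} {h : ℝ}

section
variable (H : HypAt G o h)
include H

theorem HypAt.mem {w : V} {r : ℕ} : w ∈ ball G o r ↔ G.dist o w ≤ r := mem_ball H.conn H.fin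

theorem HypAt.card_pos (r : ℕ) : 0 < (ball G o r).card :=
  Finset.card_pos.2 ⟨o, by rw [H.mem, SimpleGraph.dist_self]; exact Nat.zero_le r⟩

/-- expansion of a set inside a larger set -/
theorem HypAt.step {r : ℕ} {S T : Finset V} (hS : S ⊆ ball G o r)
    (h2 : 2 * S.card ≤ (ball G o r).card) (hST : S ⊆ T)
    (hT : ∀ u ∈ S, ∀ w ∈ ball G o r, G.Adj u w → w ∈ T) :
    (1 + h) * (S.card : ℝ) ≤ (T.card : ℝ) := by
  have h1 := H.exp r S hS h2
  have h3 : S ∪ (ball G o r).filter (fun w => w ∉ S ∧ ∃ u ∈ S, G.Adj u w) ⊆ T := by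
    refine Finset.union_subset hST ?_
    intro w hw
    obtain ⟨hw1, _, u, hu, ha⟩ := Finset.mem_filter.1 hw
    exact hT u hu w hw1 ha
  have h4 : Disjoint S ((ball G o r).filter (fun w => w ∉ S ∧ ∃ u ∈ S, G.Adj u w)) := by
    rw [Finset.disjoint_left]
    intro a ha hb
    exact (Finset.mem_filter.1 hb).2.1 ha
  have h5 := Finset.card_le_card h3
  rw [Finset.card_union_of_disjoint h4] at h5
  have h6 : (S.card : ℝ) +
      (((ball G o r).filter (fun w => w ∉ S ∧ ∃ u ∈ S, G.Adj u w)).card : ℝ) ≤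
      (T.card : ℝ) := by exact_mod_cast h5
  linarith

theorem HypAt.growth (r : ℕ) : (1 + h) * ((ball G o r).card : ℝ) ≤ ((ball G o (r + 1)).card : ℝ) := by
  have := H.inf
  obtain ⟨s, hs⟩ := Infinite.exists_subset_card_eq V (2 * (ball G o r).card)
  set r1 := max (s.sup (fun w => G.dist o w)) (r + 1) with hr1
  have h1 : s ⊆ ball G o r1 := by
    intro w hw
    rw [H.mem]
    exact (Finset.le_sup (f := fun w => G.dist o w) hw).trans (le_max_left _ _)
  have hle : r + 1 ≤ r1 := le_max_right _ _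
  apply H.step (r := r1)
  · intro w hw
    rw [H.mem] at *
    omega
  · rw [← hs]
    exact Finset.card_le_card h1
  · intro w hw
    rw [H.mem] at *
    omega
  · intro u hu w _ ha
    rw [H.mem] at *
    have h5 := H.conn.dist_triangle (u := o) (v := u) (w := w)
    have h6 : G.dist u w = 1 := SimpleGraph.dist_eq_one_iff_adj.2 ha
    omega

theorem HypAt.growth_pow (r t : ℕ) :
    (1 + h) ^ t * ((ball G o r).card : ℝ) ≤ ((ball G o (r + t)).card : ℝ) := by
  have hp := H.pos
  induction t with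
  | zero => rw [pow_zero, one_mul]; exact le_rfl
  | succ t ih =>
    calc (1 + h) ^ (t + 1) * ((ball G o r).card : ℝ)
        = (1 + h) * ((1 + h) ^ t * ((ball G o r).card : ℝ)) := by ring
      _ ≤ (1 + h) * ((ball G o (r + t)).card : ℝ) := mul_le_mul_of_nonneg_left ih (by linarith)
      _ ≤ _ := H.growth (r + t)

theorem HypAt.low_step {f : V → ℕ} (hf : ∀ u w, G.Adj u w → f w ≤ f u + 1) {r k : ℕ}
    (h2 : 2 * (low G o r f k).card ≤ (ball G o r).card) :
    (1 + h) * ((low G o r f k).card : ℝ) ≤ ((low G o r f (k + 1)).card : ℝ) := by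
  apply H.step (Finset.filter_subset _ _) h2
  · intro x hx
    obtain ⟨h3, h4⟩ := Finset.mem_filter.1 hx
    exact Finset.mem_filter.2 ⟨h3, by omega⟩
  · intro u hu w hw ha
    obtain ⟨h3, h4⟩ := Finset.mem_filter.1 hu
    have := hf u w ha
    exact Finset.mem_filter.2 ⟨hw, by omega⟩

theorem HypAt.high_step {f : V → ℕ} (hf : ∀ u w, G.Adj u w → f w ≤ f u + 1) {r k : ℕ}
    (h2 : 2 * (high G o r f (k + 1)).card ≤ (ball G o r).card) :
    (1 + h) * ((high G o r f (k + 1)).card : ℝ) ≤ ((high G o r f k).card : ℝ) := by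
  apply H.step (Finset.filter_subset _ _) h2
  · intro x hx
    obtain ⟨h3, h4⟩ := Finset.mem_filter.1 hx
    exact Finset.mem_filter.2 ⟨h3, by omega⟩
  · intro u hu w hw ha
    obtain ⟨h3, h4⟩ := Finset.mem_filter.1 hu
    have := hf w u ha.symm
    exact Finset.mem_filter.2 ⟨hw, by omega⟩

omit H in
theorem low_add_high (G : SimpleGraph V) (o : V) (r : ℕ) (f : V → ℕ) (k : ℕ) :
    (low G o r f k).card + (high G o r f k).card = (ball G o r).card := by
  unfold low high
  have h1 := Finset.card_filter_add_card_filter_not (s := ball G o r) (fun x => f x ≤ k)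
  rw [← h1]
  congr 2
  ext x
  simp only [Finset.mem_filter, not_le]

omit H in
theorem low_mono (r : ℕ) (f : V → ℕ) {k l : ℕ} (hkl : k ≤ l) :
    (low G o r f k).card ≤ (low G o r f l).card := by
  apply Finset.card_le_card
  intro x hx
  obtain ⟨h3, h4⟩ := Finset.mem_filter.1 hx
  exact Finset.mem_filter.2 ⟨h3, by omega⟩

omit H in
theorem high_anti (r : ℕ) (f : V → ℕ) {k l : ℕ} (hkl : k ≤ l) :
    (high G o r f l).card ≤ (high G o r f k).card := by
  apply Finset.card_le_card
  intro x hx
  obtain ⟨h3, h4⟩ := Finset.mem_filter.1 hx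
  exact Finset.mem_filter.2 ⟨h3, by omega⟩

/-- a `1`-Lipschitz function on the ball is concentrated near its median `m` -/
theorem HypAt.median {f : V → ℕ} (hf : ∀ u w, G.Adj u w → f w ≤ f u + 1) (r : ℕ) :
    ∃ m : ℕ, (1 + h) ^ m * ((low G o r f 0).card : ℝ) ≤ ((ball G o r).card : ℝ) ∧
      ∀ w : ℕ, 2 * ((1 + h) ^ w * ((high G o r f (m + w)).card : ℝ)) ≤
        ((ball G o r).card : ℝ) := by
  have hp := H.pos
  have hex : ∃ k, (ball G o r).card < 2 * (low G o r f k).card := by
    refine ⟨(ball G o r).sup f, ?_⟩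
    have h1 : low G o r f ((ball G o r).sup f) = ball G o r := by
      apply Finset.filter_true_of_mem
      intro x hx
      exact Finset.le_sup hx
    rw [h1]
    have := H.card_pos r
    omega
  set m := Nat.find hex with hm
  have hm1 : (ball G o r).card < 2 * (low G o r f m).card := Nat.find_spec hex
  have hm2 : ∀ k < m, 2 * (low G o r f k).card ≤ (ball G o r).card := fun k hk =>
    not_lt.1 (Nat.find_min hex hk)
  refine ⟨m, ?_, ?_⟩
  · have key : ∀ k ≤ m, (1 + h) ^ k * ((low G o r f 0).card : ℝ) ≤ ((low G o r f k).card : ℝ) := by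
      intro k
      induction k with
      | zero => intro _; rw [pow_zero, one_mul]
      | succ k ih =>
        intro hk
        calc (1 + h) ^ (k + 1) * ((low G o r f 0).card : ℝ)
            = (1 + h) * ((1 + h) ^ k * ((low G o r f 0).card : ℝ)) := by ring
          _ ≤ (1 + h) * ((low G o r f k).card : ℝ) :=
              mul_le_mul_of_nonneg_left (ih (by omega)) (by linarith)
          _ ≤ _ := H.low_step hf (hm2 k (by omega))
    refine (key m le_rfl).trans ?_
    exact_mod_cast Finset.card_le_card (Finset.filter_subset _ _)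
  · intro w
    have hsum := low_add_high G o r f m
    have hhi : 2 * (high G o r f m).card ≤ (ball G o r).card := by omega
    induction w with
    | zero =>
      rw [pow_zero, one_mul, add_zero]
      exact_mod_cast hhi
    | succ w ih =>
      have h1 := high_anti (G := G) (o := o) r f (show m ≤ m + (w + 1) by omega)
      have h2 := H.high_step hf (r := r) (k := m + w) (by rw [add_assoc]; omega)
      calc 2 * ((1 + h) ^ (w + 1) * ((high G o r f (m + (w + 1))).card : ℝ))
          = 2 * ((1 + h) ^ w * ((1 + h) * ((high G o r f (m + w + 1)).card : ℝ))) := by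
            rw [← add_assoc]; ring
        _ ≤ 2 * ((1 + h) ^ w * ((high G o r f (m + w)).card : ℝ)) := by
            apply mul_le_mul_of_nonneg_left _ (by norm_num)
            exact mul_le_mul_of_nonneg_left h2 (by positivity)
        _ ≤ _ := ih

/-- two `1`-Lipschitz functions whose sum is at least the distance from the centre -/
theorem HypAt.two {f₁ f₂ : V → ℕ} (hf₁ : ∀ u w, G.Adj u w → f₁ w ≤ f₁ u + 1)
    (hf₂ : ∀ u w, G.Adj u w → f₂ w ≤ f₂ u + 1) (hd : ∀ x, G.dist o x ≤ f₁ x + f₂ x)
    {w : ℕ} (hw : 4 ≤ (1 + h) ^ w) (r : ℕ) :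
    (1 + h) ^ r * (((low G o r f₁ 0).card : ℝ) * ((low G o r f₂ 0).card : ℝ)) ≤
      (1 + h) ^ (3 * w) * ((ball G o r).card : ℝ) ^ 2 := by
  have hp := H.pos
  obtain ⟨m₁, h11, h12⟩ := H.median hf₁ r
  obtain ⟨m₂, h21, h22⟩ := H.median hf₂ r
  have hr : r ≤ m₁ + m₂ + 3 * w := by
    by_contra hcon
    have hrw : w ≤ r := by omega
    have hB : ball G o r ⊆ high G o r f₁ (m₁ + w) ∪ (high G o r f₂ (m₂ + w) ∪ ball G o (r - w)) := by
      intro x hx
      by_contra hx2
      rw [Finset.mem_union, Finset.mem_union, not_or, not_or] at hx2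
      obtain ⟨h1, h2, h3⟩ := hx2
      have h1' : f₁ x ≤ m₁ + w := by
        by_contra h4
        exact h1 (Finset.mem_filter.2 ⟨hx, by omega⟩)
      have h2' : f₂ x ≤ m₂ + w := by
        by_contra h4
        exact h2 (Finset.mem_filter.2 ⟨hx, by omega⟩)
      rw [H.mem] at h3
      have := hd x
      omega
    have h1 := (Finset.card_le_card hB).trans ((Finset.card_union_le _ _).trans
      (Nat.add_le_add_left (Finset.card_union_le _ _) _))
    have h2 : ((ball G o r).card : ℝ) ≤ ((high G o r f₁ (m₁ + w)).card : ℝ) +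
        (((high G o r f₂ (m₂ + w)).card : ℝ) + ((ball G o (r - w)).card : ℝ)) := by
      exact_mod_cast h1
    have h3 := H.growth_pow (r - w) w
    rw [Nat.sub_add_cancel hrw] at h3
    have h4 := h12 w
    have h5 := h22 w
    have h6 : (4 : ℝ) * ((high G o r f₁ (m₁ + w)).card : ℝ) ≤
        (1 + h) ^ w * ((high G o r f₁ (m₁ + w)).card : ℝ) :=
      mul_le_mul_of_nonneg_right hw (Nat.cast_nonneg _)
    have h7 : (4 : ℝ) * ((high G o r f₂ (m₂ + w)).card : ℝ) ≤
        (1 + h) ^ w * ((high G o r f₂ (m₂ + w)).card : ℝ) :=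
      mul_le_mul_of_nonneg_right hw (Nat.cast_nonneg _)
    have h8 : (4 : ℝ) * ((ball G o (r - w)).card : ℝ) ≤
        (1 + h) ^ w * ((ball G o (r - w)).card : ℝ) :=
      mul_le_mul_of_nonneg_right hw (Nat.cast_nonneg _)
    have h9 : (0 : ℝ) < ((ball G o r).card : ℝ) := by exact_mod_cast H.card_pos r
    linarith
  calc (1 + h) ^ r * (((low G o r f₁ 0).card : ℝ) * ((low G o r f₂ 0).card : ℝ))
      ≤ (1 + h) ^ (m₁ + m₂ + 3 * w) *
          (((low G o r f₁ 0).card : ℝ) * ((low G o r f₂ 0).card : ℝ)) := by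
        apply mul_le_mul_of_nonneg_right _ (by positivity)
        exact pow_le_pow_right₀ (by linarith) hr
    _ = (1 + h) ^ (3 * w) * (((1 + h) ^ m₁ * ((low G o r f₁ 0).card : ℝ)) *
          ((1 + h) ^ m₂ * ((low G o r f₂ 0).card : ℝ))) := by
        rw [pow_add, pow_add]; ring
    _ ≤ (1 + h) ^ (3 * w) * (((ball G o r).card : ℝ) * ((ball G o r).card : ℝ)) := by
        apply mul_le_mul_of_nonneg_left _ (by positivity)
        exact mul_le_mul h11 h21 (by positivity) (by positivity)
    _ = _ := by ring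

end

end Pool.Agent.TH186.Balls
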