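import Mathlib
import Pool.Agent.TH186.Balls.Lip

set_option autoImplicit false

open Finset

namespace Pool.Agent.TH186.Balls

universe u v

open scoped Classical

section
variable {V₁ : Type u} {V₂ : Type v} {G₁ : SimpleGraph V₁} {G₂ : SimpleGraph V₂}

theorem dist_box (h1 : G₁.Connected) (h2 : G₂.Connected) (x y : V₁ × V₂) :
    (G₁.boxProd G₂).dist x y = G₁.dist x.1 y.1 + G₂.dist x.2 y.2 := by
  unfold SimpleGraph.dist
  rw [SimpleGraph.edist_boxProd, ENat.toNat_add]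
  · exact SimpleGraph.edist_ne_top_iff_reachable.2 (h1.preconnected _ _)
  · exact SimpleGraph.edist_ne_top_iff_reachable.2 (h2.preconnected _ _)

theorem fin_left (x₂ : V₂) (hf : ∀ x, ((G₁.boxProd G₂).neighborSet x).Finite) (x₁ : V₁) :
    (G₁.neighborSet x₁).Finite := by
  have h1 := (hf (x₁, x₂)).image Prod.fst
  refine h1.subset ?_
  intro w hw
  refine ⟨(w, x₂), ?_, rfl⟩
  rw [SimpleGraph.mem_neighborSet, SimpleGraph.boxProd_adj]
  exact Or.inl ⟨hw, rfl⟩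

theorem fin_right (x₁ : V₁) (hf : ∀ x, ((G₁.boxProd G₂).neighborSet x).Finite) (x₂ : V₂) :
    (G₂.neighborSet x₂).Finite := by
  have h1 := (hf (x₁, x₂)).image Prod.snd
  refine h1.subset ?_
  intro w hw
  refine ⟨(x₁, w), ?_, rfl⟩
  rw [SimpleGraph.mem_neighborSet, SimpleGraph.boxProd_adj]
  exact Or.inr ⟨hw, rfl⟩

theorem dist_lip {V : Type u} {G : SimpleGraph V} (hc : G.Connected) (v : V) {u w : V}
    (ha : G.Adj u w) : G.dist v w ≤ G.dist v u + 1 := by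
  have h5 := hc.dist_triangle (u := v) (v := u) (w := w)
  have h6 : G.dist u w = 1 := SimpleGraph.dist_eq_one_iff_adj.2 ha
  omega

theorem box_card_le (h1 : G₁.Connected) (h2 : G₂.Connected)
    (hf : ∀ x, ((G₁.boxProd G₂).neighborSet x).Finite) (v₁ : V₁) (v₂ : V₂) (r : ℕ) :
    (ball (G₁.boxProd G₂) (v₁, v₂) r).card ≤
      ∑ k ∈ Finset.range (r + 1), (ball G₁ v₁ k).card * (ball G₂ v₂ (r - k)).card := by
  have hf1 := fin_left v₂ hf
  have hf2 := fin_right v₁ hf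
  have hsub : ball (G₁.boxProd G₂) (v₁, v₂) r ⊆
      (Finset.range (r + 1)).biUnion (fun k => (ball G₁ v₁ k) ×ˢ (ball G₂ v₂ (r - k))) := by
    intro x hx
    rw [mem_ball (h1.boxProd h2) hf, dist_box h1 h2] at hx
    dsimp only at hx
    rw [Finset.mem_biUnion]
    refine ⟨G₁.dist v₁ x.1, Finset.mem_range.2 (by omega), ?_⟩
    rw [Finset.mem_product, mem_ball h1 hf1, mem_ball h2 hf2]
    exact ⟨le_rfl, by omega⟩
  refine (Finset.card_le_card hsub).trans (Finset.card_biUnion_le.trans (le_of_eq ?_))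
  exact Finset.sum_congr rfl fun k _ => Finset.card_product _ _

theorem box_low_left (h1 : G₁.Connected) (h2 : G₂.Connected)
    (hf : ∀ x, ((G₁.boxProd G₂).neighborSet x).Finite) (v₁ : V₁) (v₂ : V₂) (r : ℕ) :
    (ball G₂ v₂ r).card ≤
      (low (G₁.boxProd G₂) (v₁, v₂) r (fun x => G₁.dist v₁ x.1) 0).card := by
  have hf2 := fin_right v₁ hf
  apply Finset.card_le_card_of_injOn (fun y => (v₁, y))
  · intro y hy
    rw [Finset.mem_coe, mem_ball h2 hf2] at hy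
    rw [Finset.mem_coe]
    refine Finset.mem_filter.2 ⟨?_, ?_⟩
    · rw [mem_ball (h1.boxProd h2) hf, dist_box h1 h2]
      dsimp only
      rw [SimpleGraph.dist_self]
      omega
    · dsimp only
      rw [SimpleGraph.dist_self]
  · intro a _ b _ hab
    exact (Prod.mk.inj hab).2

theorem box_low_right (h1 : G₁.Connected) (h2 : G₂.Connected)
    (hf : ∀ x, ((G₁.boxProd G₂).neighborSet x).Finite) (v₁ : V₁) (v₂ : V₂) (r : ℕ) :
    (ball G₁ v₁ r).card ≤
      (low (G₁.boxProd G₂) (v₁, v₂) r (fun x => G₂.dist v₂ x.2) 0).card := by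
  have hf1 := fin_left v₂ hf
  apply Finset.card_le_card_of_injOn (fun y => (y, v₂))
  · intro y hy
    rw [Finset.mem_coe, mem_ball h1 hf1] at hy
    rw [Finset.mem_coe]
    refine Finset.mem_filter.2 ⟨?_, ?_⟩
    · rw [mem_ball (h1.boxProd h2) hf, dist_box h1 h2]
      dsimp only
      rw [SimpleGraph.dist_self]
      omega
    · dsimp only
      rw [SimpleGraph.dist_self]
  · intro a _ b _ hab
    exact (Prod.mk.inj hab).1

/-- the inequality for product graphs -/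
theorem box_bound (h1 : G₁.Connected) (h2 : G₂.Connected) (v₁ : V₁) (v₂ : V₂) {h : ℝ}
    (H : HypAt (G₁.boxProd G₂) (v₁, v₂) h) {w : ℕ} (hw : 4 ≤ (1 + h) ^ w) (r : ℕ) :
    (1 + h) ^ r * (((ball G₁ v₁ r).card : ℝ) * ((ball G₂ v₂ r).card : ℝ)) ≤
      (1 + h) ^ (3 * w) * (∑ k ∈ Finset.range (r + 1),
        ((ball G₁ v₁ k).card : ℝ) * ((ball G₂ v₂ (r - k)).card : ℝ)) ^ 2 := by
  have hp := H.pos
  have key := H.two (f₁ := fun x => G₁.dist v₁ x.1) (f₂ := fun x => G₂.dist v₂ x.2)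
    (by
      intro a b hab
      rw [SimpleGraph.boxProd_adj] at hab
      rcases hab with ⟨h3, _⟩ | ⟨_, h3⟩
      · exact dist_lip h1 v₁ h3
      · rw [h3]
        omega)
    (by
      intro a b hab
      rw [SimpleGraph.boxProd_adj] at hab
      rcases hab with ⟨_, h3⟩ | ⟨h3, _⟩
      · rw [h3]
        omega
      · exact dist_lip h2 v₂ h3)
    (by
      intro x
      rw [dist_box h1 h2]) hw r
  have h3 : ((ball G₂ v₂ r).card : ℝ) ≤
      ((low (G₁.boxProd G₂) (v₁, v₂) r (fun x => G₁.dist v₁ x.1) 0).card : ℝ) := by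
    exact_mod_cast box_low_left h1 h2 H.fin v₁ v₂ r
  have h4 : ((ball G₁ v₁ r).card : ℝ) ≤
      ((low (G₁.boxProd G₂) (v₁, v₂) r (fun x => G₂.dist v₂ x.2) 0).card : ℝ) := by
    exact_mod_cast box_low_right h1 h2 H.fin v₁ v₂ r
  have h5 : ((ball (G₁.boxProd G₂) (v₁, v₂) r).card : ℝ) ≤ ∑ k ∈ Finset.range (r + 1),
        ((ball G₁ v₁ k).card : ℝ) * ((ball G₂ v₂ (r - k)).card : ℝ) := by
    exact_mod_cast box_card_le h1 h2 H.fin v₁ v₂ r
  calc (1 + h) ^ r * (((ball G₁ v₁ r).card : ℝ) * ((ball G₂ v₂ r).card : ℝ))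
      = (1 + h) ^ r * (((ball G₂ v₂ r).card : ℝ) * ((ball G₁ v₁ r).card : ℝ)) := by ring
    _ ≤ _ := by
        apply mul_le_mul_of_nonneg_left _ (by positivity)
        exact mul_le_mul h3 h4 (by positivity) (by positivity)
    _ ≤ _ := key
    _ ≤ _ := by
        apply mul_le_mul_of_nonneg_left _ (by positivity)
        exact pow_le_pow_left₀ (by positivity) h5 2

end

/-- a bound for large `r` is a bound for all `r` with a constant -/
theorem exists_bound {b : ℕ → ℝ} (hb : ∀ r, 0 ≤ b r) {lam : ℝ} (hlam : 0 < lam)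
    (h : ∀ᶠ r in Filter.atTop, b r ≤ lam ^ r) : ∃ C : ℝ, 1 ≤ C ∧ ∀ r, b r ≤ C * lam ^ r := by
  obtain ⟨r0, hr0⟩ := Filter.eventually_atTop.1 h
  refine ⟨1 + ∑ r ∈ Finset.range r0, b r / lam ^ r, ?_, ?_⟩
  · have : 0 ≤ ∑ r ∈ Finset.range r0, b r / lam ^ r :=
      Finset.sum_nonneg fun r _ => div_nonneg (hb r) (by positivity)
    linarith
  · intro r
    by_cases hr : r0 ≤ r
    · have h1 := hr0 r hr
      have h2 : 0 ≤ ∑ r ∈ Finset.range r0, b r / lam ^ r :=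
        Finset.sum_nonneg fun r _ => div_nonneg (hb r) (by positivity)
      have h3 : 0 ≤ (∑ r ∈ Finset.range r0, b r / lam ^ r) * lam ^ r := by positivity
      linarith
    · have h1 : b r / lam ^ r ≤ ∑ r ∈ Finset.range r0, b r / lam ^ r :=
        Finset.single_le_sum (f := fun r => b r / lam ^ r)
          (fun r _ => div_nonneg (hb r) (by positivity)) (Finset.mem_range.2 (by omega))
      have h2 : b r / lam ^ r ≤ 1 + ∑ r ∈ Finset.range r0, b r / lam ^ r := by linarith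
      rwa [div_le_iff₀ (by positivity)] at h2

theorem asymp {b₁ b₂ : ℕ → ℝ} (hb1 : ∀ r, 0 ≤ b₁ r) (hb2 : ∀ r, 0 ≤ b₂ r) {ρ W lam mu : ℝ}
    (hρ : 0 < ρ) (hW : 0 ≤ W) (hlam : 0 < lam) (hmu : 0 < mu)
    (h : ∀ r, ρ ^ r * (b₁ r * b₂ r) ≤
      W * (∑ k ∈ Finset.range (r + 1), b₁ k * b₂ (r - k)) ^ 2)
    (hl1 : ∀ᶠ r in Filter.atTop, b₁ r ≤ lam ^ r) (hl2 : ∀ᶠ r in Filter.atTop, b₂ r ≤ lam ^ r)
    (hm : ∃ᶠ r in Filter.atTop, mu ^ (2 * r) ≤ b₁ r * b₂ r) : mu ^ 2 * ρ ≤ lam ^ 2 := by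
  obtain ⟨C1, hC1, h1⟩ := exists_bound hb1 hlam hl1
  obtain ⟨C2, hC2, h2⟩ := exists_bound hb2 hlam hl2
  by_contra hcon
  set q : ℝ := mu ^ 2 * ρ / lam ^ 2 with hq
  have hq1 : 1 < q := by
    rw [hq, one_lt_div (by positivity)]
    exact not_le.1 hcon
  set K : ℝ := W * (C1 * C2) ^ 2 * q with hK
  have hK0 : 0 ≤ K := by positivity
  have ht := (tendsto_pow_const_div_const_pow_of_one_lt 2 hq1).comp (Filter.tendsto_add_atTop_nat 1)
  have hev : ∀ᶠ r : ℕ in Filter.atTop,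
      (((r + 1 : ℕ) : ℝ) ^ 2 / q ^ (r + 1)) < 1 / (K + 1) :=
    ht.eventually_lt_const (by positivity)
  obtain ⟨r, hr1, hr2⟩ := (hm.and_eventually hev).exists
  have hsum : ∑ k ∈ Finset.range (r + 1), b₁ k * b₂ (r - k) ≤ (r + 1) * (C1 * C2 * lam ^ r) := by
    calc ∑ k ∈ Finset.range (r + 1), b₁ k * b₂ (r - k)
        ≤ ∑ k ∈ Finset.range (r + 1), C1 * C2 * lam ^ r := by
          refine Finset.sum_le_sum fun k hk => ?_
          have hk' : k ≤ r := by
            have := Finset.mem_range.1 hk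
            omega
          calc b₁ k * b₂ (r - k) ≤ (C1 * lam ^ k) * (C2 * lam ^ (r - k)) :=
                mul_le_mul (h1 k) (h2 _) (hb2 _) (by positivity)
            _ = C1 * C2 * (lam ^ k * lam ^ (r - k)) := by ring
            _ = C1 * C2 * lam ^ r := by rw [← pow_add, Nat.add_sub_cancel' hk']
      _ = (r + 1) * (C1 * C2 * lam ^ r) := by
          rw [Finset.sum_const, Finset.card_range, nsmul_eq_mul]
          push_cast
          ring
  have hsum0 : 0 ≤ ∑ k ∈ Finset.range (r + 1), b₁ k * b₂ (r - k) :=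
    Finset.sum_nonneg fun k _ => mul_nonneg (hb1 _) (hb2 _)
  have h3 : ρ ^ r * mu ^ (2 * r) ≤ W * ((r + 1) * (C1 * C2 * lam ^ r)) ^ 2 := by
    calc ρ ^ r * mu ^ (2 * r) ≤ ρ ^ r * (b₁ r * b₂ r) :=
          mul_le_mul_of_nonneg_left hr1 (by positivity)
      _ ≤ _ := h r
      _ ≤ _ := by
          apply mul_le_mul_of_nonneg_left _ hW
          exact pow_le_pow_left₀ hsum0 hsum 2
  have h4 : q ^ r * lam ^ (2 * r) = ρ ^ r * mu ^ (2 * r) := by
    rw [hq, div_pow, mul_pow, pow_mul, pow_mul]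
    field_simp
  have h5 : q ^ r * lam ^ (2 * r) ≤ (W * (C1 * C2) ^ 2 * (r + 1) ^ 2) * lam ^ (2 * r) := by
    rw [h4]
    refine h3.trans (le_of_eq ?_)
    rw [pow_mul' lam 2 r]
    ring
  have h6 : q ^ r ≤ W * (C1 * C2) ^ 2 * (r + 1) ^ 2 := le_of_mul_le_mul_right h5 (by positivity)
  have h7 : q ^ (r + 1) ≤ K * ((r : ℝ) + 1) ^ 2 := by
    calc q ^ (r + 1) = q ^ r * q := pow_succ _ _
      _ ≤ (W * (C1 * C2) ^ 2 * (r + 1) ^ 2) * q := mul_le_mul_of_nonneg_right h6 (by linarith)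
      _ = K * ((r : ℝ) + 1) ^ 2 := by rw [hK]; ring
  have hq0 : 0 < q ^ (r + 1) := by positivity
  rw [div_lt_div_iff₀ hq0 (by positivity)] at hr2
  push_cast at hr2
  have h8 : 0 < ((r : ℝ) + 1) ^ 2 := by positivity
  nlinarith

end Pool.Agent.TH186.Balls
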