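import Mathlib
import Pool.Agent.TH186.Balls.LipN
import Pool.Agent.TH186.Balls.Prod

set_option autoImplicit false

open Finset

namespace Pool.Agent.TH186.Balls

universe u v

open scoped Classical

section
variable {V : Type u} {G : SimpleGraph V} {D : ℕ}

/-- connected with degrees at most `D` -/
structure Deg (G : SimpleGraph V) (D : ℕ) : Prop where
  conn : G.Connected
  fin : ∀ v, (G.neighborSet v).Finite
  deg : ∀ v, (nb G v).card ≤ D

theorem Deg.mem (H : Deg G D) {v w : V} {r : ℕ} : w ∈ ball G v r ↔ G.dist v w ≤ r :=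
  mem_ball H.conn H.fin

theorem Deg.card_succ (H : Deg G D) (v : V) (r : ℕ) :
    (ball G v (r + 1)).card ≤ (D + 1) * (ball G v r).card := by
  have hsub : ball G v (r + 1) ⊆ (ball G v r) ∪ (ball G v r).biUnion (nb G) := by
    intro w hw
    rw [H.mem] at hw
    rw [Finset.mem_union]
    by_cases h1 : G.dist v w ≤ r
    · exact Or.inl (H.mem.2 h1)
    · right
      have hne : w ≠ v := by
        rintro rfl
        rw [SimpleGraph.dist_self] at h1
        omega
      obtain ⟨u, hu1, hu2⟩ := exists_next H.conn hne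
      rw [SimpleGraph.dist_comm] at hw
      rw [Finset.mem_biUnion]
      refine ⟨u, H.mem.2 ?_, (Balls.mem_nb H.fin).2 hu1.symm⟩
      rw [SimpleGraph.dist_comm]
      omega
  calc (ball G v (r + 1)).card ≤ ((ball G v r) ∪ (ball G v r).biUnion (nb G)).card :=
        Finset.card_le_card hsub
    _ ≤ (ball G v r).card + ((ball G v r).biUnion (nb G)).card := Finset.card_union_le _ _
    _ ≤ (ball G v r).card + (ball G v r).card * D :=
        Nat.add_le_add_left (Finset.card_biUnion_le_card_mul _ _ _ fun u _ => H.deg u) _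
    _ = (D + 1) * (ball G v r).card := by ring

theorem Deg.card_le (H : Deg G D) (v : V) (r : ℕ) : (ball G v r).card ≤ (D + 1) ^ r := by
  induction r with
  | zero =>
    rw [pow_zero]
    have h1 : ball G v 0 ⊆ {v} := by
      intro w hw
      rw [H.mem, Nat.le_zero, H.conn.dist_eq_zero_iff] at hw
      rw [Finset.mem_singleton]
      exact hw.symm
    exact (Finset.card_le_card h1).trans (by rw [Finset.card_singleton])
  | succ r ih =>
    calc (ball G v (r + 1)).card ≤ (D + 1) * (ball G v r).card := H.card_succ v r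
      _ ≤ (D + 1) * (D + 1) ^ r := Nat.mul_le_mul_left _ ih
      _ = (D + 1) ^ (r + 1) := by ring

theorem Deg.card_pos (H : Deg G D) (v : V) (r : ℕ) : 0 < (ball G v r).card :=
  Finset.card_pos.2 ⟨v, by rw [H.mem, SimpleGraph.dist_self]; exact Nat.zero_le r⟩

theorem exists_dist (hc : G.Connected) (v : V) (m k : ℕ) : ∀ w, G.dist v w = m + k →
    ∃ x, G.dist v x = m := by
  induction k with
  | zero => exact fun w hw => ⟨w, hw⟩
  | succ k ih =>
    intro w hw
    have hne : w ≠ v := by
      rintro rfl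
      rw [SimpleGraph.dist_self] at hw
      omega
    obtain ⟨u, hu1, hu2⟩ := exists_next hc hne
    apply ih u
    rw [SimpleGraph.dist_comm (u := v) (v := u)]
    rw [SimpleGraph.dist_comm (u := v) (v := w)] at hw
    omega

theorem Deg.card_lower (H : Deg G D) (v : V) (r : ℕ) :
    r + 1 ≤ (ball G v r).card ∨ ∀ w, w ∈ ball G v r := by
  induction r with
  | zero => left; exact H.card_pos v 0
  | succ r ih =>
    rcases ih with ih | ih
    · by_cases hall : ∀ w, w ∈ ball G v r
      · right
        intro w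
        have := H.mem.1 (hall w)
        rw [H.mem]
        omega
      · left
        push Not at hall
        obtain ⟨w, hw⟩ := hall
        rw [H.mem, not_le] at hw
        obtain ⟨x, hx⟩ := exists_dist H.conn v (r + 1) (G.dist v w - (r + 1)) w (by omega)
        have h1 : ball G v r ⊂ ball G v (r + 1) := by
          rw [Finset.ssubset_iff_of_subset]
          · exact ⟨x, H.mem.2 hx.le, fun h => by rw [H.mem] at h; omega⟩
          · intro y hy
            rw [H.mem] at *
            omega
        have := Finset.card_lt_card h1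
        omega
    · right
      intro w
      have := H.mem.1 (ih w)
      rw [H.mem]
      omega

theorem Deg.card_ge (H : Deg G D) (v : V) {K : ℕ} (hK : ∃ s : Finset V, K ≤ s.card) :
    K ≤ (ball G v K).card := by
  rcases H.card_lower v K with h1 | h1
  · omega
  · obtain ⟨s, hs⟩ := hK
    exact hs.trans (Finset.card_le_card fun w _ => h1 w)

/-- the inequality for one radius, in the Cartesian square -/
theorem square_bound (H : Deg G D) (v : V) {h : ℝ} {n : ℕ}
    (HN : HypN (G.boxProd G) (v, v) h n) {w : ℕ} (hw : 4 ≤ (1 + h) ^ w) {r K : ℕ} (hrn : r ≤ n)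
    (hK : K = 2 * ((D + 1) ^ r) ^ 2 + r + 1) (hKn : K ≤ n)
    (hcard : ∃ s : Finset V, K ≤ s.card) :
    (1 + h) ^ r * (((ball G v r).card : ℝ) * ((ball G v r).card : ℝ)) ≤
      (1 + h) ^ (3 * w) * (∑ k ∈ Finset.range (r + 1),
        ((ball G v k).card : ℝ) * ((ball G v (r - k)).card : ℝ)) ^ 2 := by
  have hp := HN.pos
  have hg : ∀ s < r, (1 + h) * ((ball (G.boxProd G) (v, v) s).card : ℝ) ≤
      ((ball (G.boxProd G) (v, v) (s + 1)).card : ℝ) := by
    intro s hs
    apply HN.growth hKn (by omega)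
    have h1 : (ball (G.boxProd G) (v, v) s).card ≤ ((D + 1) ^ r) ^ 2 := by
      have h2 : ball (G.boxProd G) (v, v) s ⊆ (ball G v s) ×ˢ (ball G v s) := by
        intro x hx
        rw [HN.mem, dist_box H.conn H.conn] at hx
        dsimp only at hx
        rw [Finset.mem_product, H.mem, H.mem]
        omega
      have h3 := Finset.card_le_card h2
      rw [Finset.card_product] at h3
      have h4 : (ball G v s).card ≤ (D + 1) ^ r :=
        (H.card_le v s).trans (Nat.pow_le_pow_right (by omega) hs.le)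
      calc (ball (G.boxProd G) (v, v) s).card ≤ (ball G v s).card * (ball G v s).card := h3
        _ ≤ (D + 1) ^ r * (D + 1) ^ r := Nat.mul_le_mul h4 h4
        _ = ((D + 1) ^ r) ^ 2 := (sq _).symm
    have h5 := H.card_ge v hcard
    have h6 := box_low_left H.conn H.conn HN.fin v v K
    have h7 : (low (G.boxProd G) (v, v) K (fun x => G.dist v x.1) 0).card ≤
        (ball (G.boxProd G) (v, v) K).card := Finset.card_le_card (Finset.filter_subset _ _)
    omega
  have key := HN.two (f₁ := fun x => G.dist v x.1) (f₂ := fun x => G.dist v x.2)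
    (by
      intro a b hab
      rw [SimpleGraph.boxProd_adj] at hab
      rcases hab with ⟨h3, _⟩ | ⟨_, h3⟩
      · exact dist_lip H.conn v h3
      · rw [h3]
        omega)
    (by
      intro a b hab
      rw [SimpleGraph.boxProd_adj] at hab
      rcases hab with ⟨_, h3⟩ | ⟨h3, _⟩
      · rw [h3]
        omega
      · exact dist_lip H.conn v h3)
    (by
      intro x
      rw [dist_box H.conn H.conn]) hw hrn hg
  have h3 : ((ball G v r).card : ℝ) ≤
      ((low (G.boxProd G) (v, v) r (fun x => G.dist v x.1) 0).card : ℝ) := by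
    exact_mod_cast box_low_left H.conn H.conn HN.fin v v r
  have h4 : ((ball G v r).card : ℝ) ≤
      ((low (G.boxProd G) (v, v) r (fun x => G.dist v x.2) 0).card : ℝ) := by
    exact_mod_cast box_low_right H.conn H.conn HN.fin v v r
  have h5 : ((ball (G.boxProd G) (v, v) r).card : ℝ) ≤ ∑ k ∈ Finset.range (r + 1),
        ((ball G v k).card : ℝ) * ((ball G v (r - k)).card : ℝ) := by
    exact_mod_cast box_card_le H.conn H.conn HN.fin v v r
  calc (1 + h) ^ r * (((ball G v r).card : ℝ) * ((ball G v r).card : ℝ))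
      ≤ _ := by
        apply mul_le_mul_of_nonneg_left _ (by positivity)
        exact mul_le_mul h3 h4 (by positivity) (by positivity)
    _ ≤ _ := key
    _ ≤ _ := by
        apply mul_le_mul_of_nonneg_left _ (by positivity)
        exact pow_le_pow_left₀ (by positivity) h5 2

end

/-- no sequence of ball sizes satisfies the inequality for all radii -/
theorem no_sequence {b : ℕ → ℝ} (hb1 : ∀ r, 1 ≤ b r) {A : ℝ} (hA : 0 < A)
    (hbA : ∀ r, b r ≤ A ^ r) {ρ W : ℝ} (hρ : 1 < ρ) (hW : 0 ≤ W)
    (h : ∀ r, ρ ^ r * (b r * b r) ≤ W * (∑ k ∈ Finset.range (r + 1), b k * b (r - k)) ^ 2) :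
    False := by
  set S : Set ℝ := {a : ℝ | 0 < a ∧ ∀ᶠ r : ℕ in Filter.atTop, b r ≤ a ^ r} with hS
  have hAS : A ∈ S := ⟨hA, Filter.Eventually.of_forall hbA⟩
  have hS1 : ∀ a ∈ S, 1 ≤ a := by
    intro a ha
    obtain ⟨ha0, ha1⟩ := ha
    obtain ⟨r, hr1, hr2⟩ := (ha1.and (Filter.eventually_ge_atTop 1)).exists
    by_contra hcon
    have h1 : a ^ r < 1 := pow_lt_one₀ ha0.le (not_le.1 hcon) (by omega)
    linarith [hb1 r]
  have hbdd : BddBelow S := ⟨1, fun a ha => hS1 a ha⟩
  set α := sInf S with hα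
  have hα1 : 1 ≤ α := le_csInf ⟨A, hAS⟩ hS1
  set s := Real.sqrt (Real.sqrt ρ) with hs
  have hs1 : 1 < s := by
    rw [hs]
    rw [Real.lt_sqrt (by norm_num), one_pow, Real.lt_sqrt (by norm_num), one_pow]
    exact hρ
  have hs4 : s ^ 4 = ρ := by
    have h1 : s ^ 2 = Real.sqrt ρ := Real.sq_sqrt (Real.sqrt_nonneg _)
    have h2 : Real.sqrt ρ ^ 2 = ρ := Real.sq_sqrt (by linarith)
    calc s ^ 4 = (s ^ 2) ^ 2 := by ring
      _ = ρ := by rw [h1, h2]
  have hαs : α < α * s := by nlinarith
  obtain ⟨lam, hlam, hlam2⟩ := exists_lt_of_csInf_lt ⟨A, hAS⟩ hαs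
  have hmu : α / s < α := by
    rw [div_lt_iff₀ (by linarith)]
    exact hαs
  have hmu0 : 0 < α / s := by positivity
  have hfreq : ∃ᶠ r : ℕ in Filter.atTop, (α / s) ^ (2 * r) ≤ b r * b r := by
    have hnot : ¬ ∀ᶠ r : ℕ in Filter.atTop, b r ≤ (α / s) ^ r := by
      intro hcon
      have : α ≤ α / s := csInf_le hbdd ⟨hmu0, hcon⟩
      linarith
    refine (Filter.not_eventually.1 hnot).mono ?_
    intro r hr
    have h1 : (α / s) ^ r ≤ b r := (not_le.1 hr).le
    calc (α / s) ^ (2 * r) = (α / s) ^ r * (α / s) ^ r := by rw [← pow_add]; congr 1; ring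
      _ ≤ b r * b r := mul_le_mul h1 h1 (by positivity) (by linarith [hb1 r])
  have key := asymp (fun r => by linarith [hb1 r]) (fun r => by linarith [hb1 r])
    (by linarith : (0 : ℝ) < ρ) hW hlam.1 hmu0 h hlam.2 hlam.2 hfreq
  have h1 : (α / s) ^ 2 * ρ = (α * s) ^ 2 := by
    rw [← hs4]
    field_simp
  rw [h1] at key
  have h2 : lam ^ 2 < (α * s) ^ 2 := pow_lt_pow_left₀ hlam2 hlam.1.le (by norm_num)
  linarith

theorem square_main (D : ℕ) (h : ℝ) (hh : 0 < h) : ∃ R : ℕ, ∀ (V : Type u) (G : SimpleGraph V),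
    Deg G D → (∃ s : Finset V, R ≤ s.card) → ∀ v : V, ¬ HypN (G.boxProd G) (v, v) h R := by
  by_contra hcon
  push Not at hcon
  choose V G hdeg hcard v hexp using hcon
  obtain ⟨w, hw⟩ := pow_unbounded_of_one_lt (4 : ℝ) (show (1 : ℝ) < 1 + h by linarith)
  have hlim : ∀ k, ∃ b : ℕ, ∀ᶠ n in (Filter.hyperfilter ℕ : Filter ℕ),
      (ball (G n) (v n) k).card = b := by
    intro k
    have h1 : (⋃ b ∈ Set.Iic ((D + 1) ^ k), {n | (ball (G n) (v n) k).card = b}) ∈
        Filter.hyperfilter ℕ := by
      have h2 : (⋃ b ∈ Set.Iic ((D + 1) ^ k), {n | (ball (G n) (v n) k).card = b}) = Set.univ := by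
        rw [Set.eq_univ_iff_forall]
        intro n
        simp only [Set.mem_iUnion]
        exact ⟨_, (hdeg n).card_le (v n) k, rfl⟩
      rw [h2]
      exact Filter.univ_mem
    obtain ⟨b, _, hb⟩ := (Ultrafilter.finite_biUnion_mem_iff (Set.finite_Iic _)).1 h1
    exact ⟨b, hb⟩
  choose b hb using hlim
  have hatTop : (Filter.hyperfilter ℕ : Filter ℕ) ≤ Filter.atTop := Nat.hyperfilter_le_atTop
  have hNe : (Filter.hyperfilter ℕ : Filter ℕ).NeBot := inferInstance
  refine no_sequence (b := fun r => (b r : ℝ)) ?_ (A := (D : ℝ) + 1) (by positivity) ?_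
    (ρ := 1 + h) (W := (1 + h) ^ (3 * w)) (by linarith) (by positivity) ?_
  · intro r
    obtain ⟨n, hn⟩ := (hb r).exists
    have := (hdeg n).card_pos (v n) r
    rw [hn] at this
    exact_mod_cast this
  · intro r
    obtain ⟨n, hn⟩ := (hb r).exists
    have := (hdeg n).card_le (v n) r
    rw [hn] at this
    exact_mod_cast this
  · intro r
    have hall : ∀ᶠ n in (Filter.hyperfilter ℕ : Filter ℕ), ∀ k ∈ Finset.range (r + 1),
        (ball (G n) (v n) k).card = b k := by
      rw [Filter.eventually_all_finset]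
      exact fun k _ => hb k
    have hbig : ∀ᶠ n in (Filter.hyperfilter ℕ : Filter ℕ),
        2 * ((D + 1) ^ r) ^ 2 + r + 1 ≤ n := hatTop (Filter.eventually_ge_atTop _)
    obtain ⟨n, hn1, hn2⟩ := (hall.and hbig).exists
    obtain ⟨s, hs⟩ := hcard n
    have key := square_bound (hdeg n) (v n) (hexp n) hw.le (r := r)
      (K := 2 * ((D + 1) ^ r) ^ 2 + r + 1) (by omega) rfl hn2 ⟨s, hn2.trans hs⟩
    have h1 : (ball (G n) (v n) r).card = b r := hn1 r (Finset.mem_range.2 (by omega))
    rw [h1] at key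
    have h2 : ∑ k ∈ Finset.range (r + 1),
        ((ball (G n) (v n) k).card : ℝ) * ((ball (G n) (v n) (r - k)).card : ℝ) =
        ∑ k ∈ Finset.range (r + 1), (b k : ℝ) * (b (r - k) : ℝ) := by
      refine Finset.sum_congr rfl fun k hk => ?_
      rw [hn1 k hk, hn1 (r - k) (Finset.mem_range.2 (by omega))]
    rw [h2] at key
    exact key

end Pool.Agent.TH186.Balls
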